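import Pool.Agent.H59.L.S8.R755.KS.Mem

/-!
# Centred fibrations: other forms of the conditions
-/

set_option autoImplicit false

namespace Pool.Agent.R755.KS

open MeasureTheory Set Filter Topology ProbabilityTheory
open scoped ENNReal InnerProductSpace
open Pool.Agent.R754.KG (E un sl Rv un_prob un_int)
open Pool.Agent.R755.KF

/-- the condition `BP` with variances -/
def WP (c0 : ℝ) {M : ℕ} (μ : Measure (E M)) : Prop :=
  ∀ (k : ℕ) (P : E M →ₗ[ℝ] E k) (s : ℝ), 0 < s →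
  (∀ θ : E k, ‖θ‖ = 1 → variance (fun x => ⟪P x, θ⟫_ℝ) μ ≤ s) →
  ∀ (v : E k → ℝ) (C : ℝ), ContDiff ℝ 1 v → (∀ y, |v y| ≤ 1) → (∀ y, ‖fderiv ℝ v y‖ ≤ C) →
  variance (fun x => v (P x)) μ ^ 2 ≤ c0 * s * ∫ x, ‖fderiv ℝ v (P x)‖ ^ 2 ∂μ

theorem int_cont {M : ℕ} {μ : Measure (E M)} [IsProbabilityMeasure μ] {B : ℝ}
    (hB : ∀ᵐ x ∂μ, ‖x‖ ≤ B) {f : E M → ℝ} (hf : Continuous f) : Integrable f μ := by
  obtain ⟨C, hC⟩ := (isCompact_closedBall (0 : E M) B).exists_bound_of_continuousOn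
    hf.continuousOn
  refine Integrable.mono' (integrable_const C) hf.aestronglyMeasurable ?_
  filter_upwards [hB] with x hx
  exact hC x (by simpa using hx)

theorem var_cont {M : ℕ} {μ : Measure (E M)} [IsProbabilityMeasure μ] {B : ℝ}
    (hB : ∀ᵐ x ∂μ, ‖x‖ ≤ B) {f : E M → ℝ} (hf : Continuous f) :
    variance f μ = (∫ x, f x ^ 2 ∂μ) - (∫ x, f x ∂μ) ^ 2 := by
  rw [variance_eq_sub ((memLp_two_iff_integrable_sq hf.aestronglyMeasurable).2
    (int_cont hB (hf.pow 2)))]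
  rfl

theorem bp_of_wp {c0 : ℝ} {M : ℕ} {μ : Measure (E M)} [IsProbabilityMeasure μ] {B : ℝ}
    (hB : ∀ᵐ x ∂μ, ‖x‖ ≤ B) (h : WP c0 μ) : BP c0 μ := by
  intro k P s hs hP C v hv hv1
  have hPc : Continuous P := P.continuous_of_finiteDimensional
  have h1 := h k P s hs (fun θ hθ => by
    rw [var_cont hB (by fun_prop)]
    exact hP θ hθ) v C hv.c1 hv1 hv.gd
  rwa [var_cont hB (f := fun x => v (P x)) (hv.c1.continuous.comp hPc)] at h1

theorem wp_of_bp {c0 : ℝ} {M : ℕ} {μ : Measure (E M)} [IsProbabilityMeasure μ] {B : ℝ}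
    (hB : ∀ᵐ x ∂μ, ‖x‖ ≤ B) (h : BP c0 μ) : WP c0 μ := by
  intro k P s hs hP v C hv hv1 hvC
  have hPc : Continuous P := P.continuous_of_finiteDimensional
  rw [var_cont hB (f := fun x => v (P x)) (hv.continuous.comp hPc)]
  refine h k P s hs (fun θ hθ => ?_) (max 1 C) v ⟨hv, fun y => (hv1 y).trans (le_max_left _ _),
    fun y => (hvC y).trans (le_max_right _ _)⟩ hv1
  have h1 := hP θ hθ
  rwa [var_cont hB (by fun_prop)] at h1

theorem un_bdd {V : Type} [NormedAddCommGroup V] [NormedSpace ℝ V] [FiniteDimensional ℝ V]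
    [MeasureSpace V] [BorelSpace V] {K : Set V} (hK : IsCompact K) :
    ∃ B : ℝ, ∀ᵐ x ∂(un K), ‖x‖ ≤ B := by
  obtain ⟨B, hB⟩ := hK.isBounded.exists_norm_le
  refine ⟨B, ?_⟩
  unfold un
  refine Measure.ae_smul_measure ?_ _
  exact (ae_restrict_iff' hK.measurableSet).2 (Eventually.of_forall fun x hx => hB x hx)

theorem un_map {N d n : ℕ} (e : (E N × E d) ≃ₗ[ℝ] E n) {K : Set (E N × E d)} (h0 : volume K ≠ 0)
    (_h1 : volume K ≠ ⊤) : un (e '' K) = Measure.map e (un K) := by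
  let e' : (E N × E d) ≃L[ℝ] E n := e.toContinuousLinearEquiv
  have hme : MeasurableEmbedding e' := e'.toHomeomorph.measurableEmbedding
  have hv0 : (volume : Measure (E N × E d)).IsAddHaarMeasure :=
    inferInstanceAs (Measure.prod (volume : Measure (E N)) (volume : Measure (E d))).IsAddHaarMeasure
  have hh : (Measure.map e' (volume : Measure (E N × E d))).IsAddHaarMeasure :=
    e'.isAddHaarMeasure_map volume
  obtain ⟨c, hc⟩ : ∃ c : NNReal, Measure.map e' (volume : Measure (E N × E d)) =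
      c • (volume : Measure (E n)) := ⟨_, Measure.isAddLeftInvariant_eq_smul _ _⟩
  have hKe : e' ⁻¹' (e '' K) = K := preimage_image_eq K e.injective
  have hv : volume K = c * volume (e '' K) := by
    have h2 : (Measure.map e' (volume : Measure (E N × E d))) (e '' K) = volume K := by
      rw [hme.map_apply, hKe]
    rw [← h2, hc]
    rfl
  have hc0 : (c : ℝ≥0∞) ≠ 0 := by
    intro h
    rw [h, zero_mul] at hv
    exact h0 hv
  have hr : Measure.map e' (volume.restrict K) = c • (volume.restrict (e '' K)) := by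
    rw [← hKe, ← hme.restrict_map, hc, Measure.restrict_smul, hKe]
  have hun : un (e '' K) = Measure.map e' (un K) := by
    unfold un
    rw [Measure.map_smul, hr, hv]
    have h3 : (c • (volume.restrict (e '' K)) : Measure (E n)) =
        (c : ℝ≥0∞) • volume.restrict (e '' K) := rfl
    rw [h3, smul_smul, ENNReal.mul_inv (Or.inl hc0) (Or.inl ENNReal.coe_ne_top)]
    congr 1
    rw [mul_comm (c : ℝ≥0∞)⁻¹, mul_assoc, ENNReal.inv_mul_cancel hc0 ENNReal.coe_ne_top, mul_one]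
  exact hun

theorem un_pre {N M n : ℕ} (e : (E N × E M) ≃ₗ[ℝ] E n) {K : Set (E n)} (h : CB (e ⁻¹' K)) :
    un K = Measure.map e (un (e ⁻¹' K)) := by
  rw [← un_map e h.pos.ne' h.comp.measure_lt_top.ne, image_preimage_eq K e.surjective]

theorem e_meas {N M n : ℕ} (e : (E N × E M) ≃ₗ[ℝ] E n) : Measurable e :=
  e.toContinuousLinearEquiv.continuous.measurable

theorem es_meas {N M n : ℕ} (e : (E N × E M) ≃ₗ[ℝ] E n) : Measurable e.symm :=
  e.toContinuousLinearEquiv.symm.continuous.measurable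

/-- the law of the second component -/
theorem law_eq {N M n : ℕ} (e : (E N × E M) ≃ₗ[ℝ] E n) {K : Set (E n)} (h : CB (e ⁻¹' K)) :
    Measure.map (fun z => (e.symm z).2) (un K) = bl (e ⁻¹' K) := by
  have hm : Measurable fun z => (e.symm z).2 := measurable_snd.comp (es_meas e)
  rw [un_pre e h, Measure.map_map hm (e_meas e)]
  unfold bl
  congr 1
  funext z
  simp

theorem bl_prob {N M : ℕ} {K : Set (E N × E M)} (h : CB K) : IsProbabilityMeasure (bl K) := by
  have hp : IsProbabilityMeasure (un K) := un_prob h.pos.ne' h.comp.measure_lt_top.ne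
  exact Measure.isProbabilityMeasure_map measurable_snd.aemeasurable

theorem bl_bdd {N M : ℕ} {K : Set (E N × E M)} (h : CB K) : ∃ B : ℝ, ∀ᵐ t ∂(bl K), ‖t‖ ≤ B := by
  obtain ⟨B, hB⟩ := h.comp.isBounded.exists_norm_le
  refine ⟨B, ?_⟩
  unfold bl
  rw [ae_map_iff measurable_snd.aemeasurable (measurableSet_le (by fun_prop) (by fun_prop))]
  unfold un
  refine Measure.ae_smul_measure ?_ _
  refine (ae_restrict_iff' h.comp.measurableSet).2 (Eventually.of_forall fun z hz => ?_)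
  exact (norm_snd_le z).trans (hB z hz)

/-- the condition `QC` in other coordinates -/
def AC {N M n : ℕ} (Q : ℝ) (e : (E N × E M) ≃ₗ[ℝ] E n) (K : Set (E n)) : Prop :=
  ∃ q : E M → ℝ, Measurable q ∧ (∀ t, 0 ≤ q t) ∧ Integrable (fun z => q (e.symm z).2) (un K) ∧
    ∫ z, q (e.symm z).2 ∂(un K) ≤ Q ∧
    ∀ t, volume (sl (e ⁻¹' K) t) ≠ 0 → ∀ θ : E N, ∫ x, ⟪x, θ⟫_ℝ ^ 2 ∂(un (sl (e ⁻¹' K) t)) ≤
      q t * ∫ z, ⟪(e.symm z).1, θ⟫_ℝ ^ 2 ∂(un K)

theorem ac_iff {N M n : ℕ} (Q : ℝ) (e : (E N × E M) ≃ₗ[ℝ] E n) (K : Set (E n))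
    (h : CB (e ⁻¹' K)) : AC Q e K ↔ ∃ q : E M → ℝ, QC Q (e ⁻¹' K) q := by
  have hme : MeasurableEmbedding e :=
    e.toContinuousLinearEquiv.toHomeomorph.measurableEmbedding
  have h1 : ∀ f : E n → ℝ, ∫ z, f z ∂(un K) = ∫ z, f (e z) ∂(un (e ⁻¹' K)) := by
    intro f
    rw [un_pre e h, hme.integral_map]
  have h2 : ∀ q : E M → ℝ, Measurable q → (Integrable (fun z => q (e.symm z).2) (un K) ↔
      Integrable q (bl (e ⁻¹' K))) := by
    intro q hq
    rw [un_pre e h, hme.integrable_map_iff]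
    unfold bl
    rw [integrable_map_measure hq.aestronglyMeasurable measurable_snd.aemeasurable]
    refine iff_of_eq (congrArg (fun f => Integrable f (un (e ⁻¹' K))) ?_)
    funext z
    simp
  have h3 : ∀ q : E M → ℝ, Measurable q → ∫ z, q (e.symm z).2 ∂(un K) =
      ∫ t, q t ∂(bl (e ⁻¹' K)) := by
    intro q hq
    rw [h1]
    unfold bl
    rw [integral_map measurable_snd.aemeasurable hq.aestronglyMeasurable]
    simp
  have h4 : ∀ θ : E N, ∫ z, ⟪(e.symm z).1, θ⟫_ℝ ^ 2 ∂(un K) =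
      ∫ z, ⟪z.1, θ⟫_ℝ ^ 2 ∂(un (e ⁻¹' K)) := by
    intro θ
    rw [h1]
    simp
  constructor
  · rintro ⟨q, hq, hn, hi, hle, hc⟩
    refine ⟨q, hq, hn, (h2 q hq).1 hi, by rwa [← h3 q hq], fun t ht θ => ?_⟩
    rw [← h4]
    exact hc t ht θ
  · rintro ⟨q, hq⟩
    refine ⟨q, hq.meas, hq.nn, (h2 q hq.meas).2 hq.int, by rw [h3 q hq.meas]; exact hq.le,
      fun t ht θ => ?_⟩
    rw [h4]
    exact hq.cov t ht θ

end Pool.Agent.R755.KS
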