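import Pool.Agent.H59.L.S8.R755.KS.KS9

/-!
# Centred fibrations over a base of arbitrary dimension, KS10: the covariance condition
-/

set_option autoImplicit false

namespace Pool.Agent.R755.KS

open MeasureTheory Set Filter Topology
open scoped ENNReal InnerProductSpace
open Pool.Agent.H888R2.KT (gs gc)
open Pool.Agent.R754.KG (E un sl Rv)
open Pool.Agent.R755.KF (BL PB KW CB lw ey)

namespace KS10aux

open KS9aux

/-- uniform measures are invariant under linear symmetries -/
theorem un_map {V : Type} [NormedAddCommGroup V] [NormedSpace ℝ V] [FiniteDimensional ℝ V]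
    [MeasureSpace V] [BorelSpace V] [(volume : Measure V).IsAddHaarMeasure] (e : V ≃ₗ[ℝ] V) (S : Set V)
    (h0 : volume S ≠ 0) (h1 : volume S ≠ ⊤) (he : ∀ x, x ∈ S ↔ e x ∈ S) :
    Measure.map e (un S) = un S := by
  have hcont : Continuous e := LinearMap.continuous_of_finiteDimensional (e : V →ₗ[ℝ] V)
  have hpre : e ⁻¹' S = S := by
    ext x
    exact (he x).symm
  have hκ : ENNReal.ofReal |LinearMap.det (e.symm : V →ₗ[ℝ] V)| = 1 := by
    have h := Measure.addHaar_preimage_linearEquiv volume e S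
    rw [hpre] at h
    have h2 : 1 * volume S = ENNReal.ofReal |LinearMap.det (e.symm : V →ₗ[ℝ] V)| * volume S := by
      rw [one_mul]
      exact h
    exact ((ENNReal.mul_left_inj h0 h1).1 h2).symm
  ext A hA
  rw [Measure.map_apply hcont.measurable hA]
  unfold un
  rw [Measure.smul_apply, Measure.smul_apply, Measure.restrict_apply (hcont.measurable hA),
    Measure.restrict_apply hA]
  congr 1
  have h3 : e ⁻¹' A ∩ S = e ⁻¹' (A ∩ S) := by rw [preimage_inter, hpre]
  rw [h3, Measure.addHaar_preimage_linearEquiv, hκ, one_mul]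

/-- `ap φ i g` as a linear equivalence -/
noncomputable def apE {h N : ℕ} {m : Fin h → ℕ} (φ : (∀ i, E (m i)) ≃ₗ[ℝ] E N) (i : Fin h)
    (g : E (m i) ≃ₗᵢ[ℝ] E (m i)) : E N ≃ₗ[ℝ] E N where
  toFun := ap φ i g
  invFun := ap φ i g.symm
  map_add' x y := by
    unfold ap
    rw [← map_add]
    congr 1
    funext j
    by_cases hj : j = i
    · subst hj
      simp
    · simp [Function.update_of_ne hj]
  map_smul' c x := by
    unfold ap
    rw [RingHom.id_apply, ← map_smul]
    congr 1
    funext j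
    by_cases hj : j = i
    · subst hj
      simp
    · simp [Function.update_of_ne hj]
  left_inv x := by
    unfold ap
    simp
  right_inv x := by
    unfold ap
    simp

theorem haar_prod (N M : ℕ) : (volume : Measure (E N × E M)).IsAddHaarMeasure := by
  rw [Measure.volume_eq_prod]
  infer_instance

end KS10aux

open KS9aux KS10aux in
/-- KS10 -/
theorem qci (h1 : S_INV) : S_QCI := by
  intro c0 h N M m G φ K hG hK hsym
  obtain ⟨nn, hnn, hmu⟩ := h1 c0 h N m G φ hG
  have hHaar := haar_prod N M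
  have hV0 := hK.pos.ne'
  have hVT := kfin hK
  have hprobK : IsProbabilityMeasure (un K) := Pool.Agent.R754.KG.un_prob hV0 hVT
  obtain ⟨R, hR⟩ : ∃ R : ℝ, ∀ z ∈ K, ‖z‖ ≤ R := hK.comp.isBounded.exists_norm_le
  have hφc : Continuous φ.symm := LinearMap.continuous_of_finiteDimensional (φ.symm : E N →ₗ[ℝ] (∀ i, E (m i)))
  have hfc : ∀ i : Fin h, Continuous fun x : E N => ‖φ.symm x i‖ ^ 2 := fun i =>
    ((continuous_apply i).comp hφc).norm.pow 2
  -- the fibres
  have hfib : ∀ t, volume (sl K t) ≠ 0 → (∀ θ : E N, ∫ x, ⟪x, θ⟫_ℝ ∂(un (sl K t)) = 0) ∧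
      ∀ θ : E N, ∫ x, ⟪x, θ⟫_ℝ ^ 2 ∂(un (sl K t)) = ∑ i, (∫ x, ‖φ.symm x i‖ ^ 2 ∂(un (sl K t))) * nn i θ := by
    intro t ht
    apply hmu
    · exact Pool.Agent.R754.KG.un_prob ht (sl_fin hK t)
    · refine ⟨R, ?_⟩
      unfold un
      apply Measure.ae_smul_measure
      rw [ae_restrict_iff' (sl_meas hK t)]
      exact Eventually.of_forall fun x hx => (norm_fst_le (x, t)).trans (hR (x, t) hx)
    · intro i g hg
      exact un_map (apE φ i g) (sl K t) ht (sl_fin hK t) (fun x => hsym i g hg x t)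
  refine ⟨fun t ht => (hfib t ht).1, ?_⟩
  -- the law of the first component
  have hfst : ∀ θ : E N, ∫ z, ⟪z.1, θ⟫_ℝ ^ 2 ∂(un K) = ∑ i, (∫ z, ‖φ.symm z.1 i‖ ^ 2 ∂(un K)) * nn i θ := by
    intro θ
    have hp : IsProbabilityMeasure (Measure.map Prod.fst (un K)) :=
      Measure.isProbabilityMeasure_map measurable_fst.aemeasurable
    have h2 := (hmu (Measure.map Prod.fst (un K)) hp ⟨R, by
      rw [ae_map_iff measurable_fst.aemeasurable (measurableSet_le measurable_norm measurable_const)]
      unfold un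
      apply Measure.ae_smul_measure
      rw [ae_restrict_iff' (KS9aux.meas hK)]
      exact Eventually.of_forall fun z hz => (norm_fst_le z).trans (hR z hz)⟩ (by
      intro i g hg
      have hc : Continuous (apE φ i g) := LinearMap.continuous_of_finiteDimensional ((apE φ i g : E N ≃ₗ[ℝ] E N) : E N →ₗ[ℝ] E N)
      have h3 := un_map ((apE φ i g).prodCongr (LinearEquiv.refl ℝ (E M))) K hV0 hVT
        (fun z => hsym i g hg z.1 z.2)
      have hc2 : Continuous ((apE φ i g).prodCongr (LinearEquiv.refl ℝ (E M))) :=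
        LinearMap.continuous_of_finiteDimensional
          (((apE φ i g).prodCongr (LinearEquiv.refl ℝ (E M)) : (E N × E M) ≃ₗ[ℝ] (E N × E M)) : (E N × E M) →ₗ[ℝ] (E N × E M))
      have h4 : Measure.map (ap φ i g) (Measure.map Prod.fst (un K)) =
          Measure.map (fun z : E N × E M => ap φ i g z.1) (un K) :=
        Measure.map_map (g := ap φ i g) hc.measurable measurable_fst
      rw [h4]
      conv_rhs => rw [← h3]
      rw [Measure.map_map measurable_fst hc2.measurable]
      rfl)).2 θ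
    rw [integral_map measurable_fst.aemeasurable (by fun_prop)] at h2
    rw [h2]
    apply Finset.sum_congr rfl
    intro i _
    rw [integral_map measurable_fst.aemeasurable (hfc i).aestronglyMeasurable]
  obtain ⟨A, hA⟩ : ∃ A : Fin h → ℝ, ∀ i, A i = ∫ z, ‖φ.symm z.1 i‖ ^ 2 ∂(un K) := ⟨_, fun _ => rfl⟩
  obtain ⟨al, hal⟩ : ∃ al : Fin h → E M → ℝ≥0∞, ∀ i t, al i t = ∫⁻ x in sl K t, ENNReal.ofReal (‖φ.symm x i‖ ^ 2) :=
    ⟨fun i t => _, fun _ _ => rfl⟩
  obtain ⟨a, ha⟩ : ∃ a : Fin h → E M → ℝ, ∀ i t, a i t = (al i t).toReal / Rv K t := ⟨fun i t => _, fun _ _ => rfl⟩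
  have hA0 : ∀ i, 0 ≤ A i := fun i => by
    rw [hA]
    exact integral_nonneg fun z => sq_nonneg _
  have ha0 : ∀ i t, 0 ≤ a i t := fun i t => by
    rw [ha]
    exact div_nonneg ENNReal.toReal_nonneg (Pool.Agent.R754.KG.R_nonneg t)
  have halm : ∀ i, Measurable (al i) := fun i => by
    have h2 := sec_meas hK (fun z => ENNReal.ofReal (‖φ.symm z.1 i‖ ^ 2))
      ((hfc i).measurable.comp measurable_fst).ennreal_ofReal
    have e : al i = fun t => ∫⁻ x in sl K t, ENNReal.ofReal (‖φ.symm x i‖ ^ 2) := funext (hal i)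
    rw [e]
    exact h2
  have ham : ∀ i, Measurable (a i) := fun i => by
    have e : a i = fun t => (al i t).toReal / Rv K t := funext (ha i)
    rw [e]
    exact (halm i).ennreal_toReal.div (R_meas hK)
  -- the second moments in the fibres
  have haf : ∀ i t, volume (sl K t) ≠ 0 → ∫ x, ‖φ.symm x i‖ ^ 2 ∂(un (sl K t)) = a i t := by
    intro i t ht
    rw [ha, hal]
    unfold un
    rw [integral_smul_measure, integral_eq_lintegral_of_nonneg_ae (Eventually.of_forall fun x => sq_nonneg _)
      (hfc i).aestronglyMeasurable, ENNReal.toReal_inv, smul_eq_mul]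
    unfold Rv
    rw [div_eq_inv_mul]
  -- the integral of `a i`
  have hint1 : ∀ i, ∫⁻ t, ENNReal.ofReal (a i t) ∂(bl K) ≤ ENNReal.ofReal (A i) := by
    intro i
    rw [bl_lint hK _ (ham i).ennreal_ofReal]
    have h2 : ∫⁻ t, ENNReal.ofReal (a i t) * volume (sl K t) ≤ ∫⁻ t, al i t := by
      apply lintegral_mono
      intro t
      show ENNReal.ofReal (a i t) * volume (sl K t) ≤ al i t
      rcases (Pool.Agent.R754.KG.R_nonneg (K := K) t).eq_or_lt with h3 | h3
      · rw [R_vol hK t, ← h3, ENNReal.ofReal_zero, mul_zero]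
        exact zero_le
      · rw [R_vol hK t, ← ENNReal.ofReal_mul (ha0 i t), ha, div_mul_cancel₀ _ h3.ne']
        exact ENNReal.ofReal_toReal_le
    have h4 : ∫⁻ t, al i t = ∫⁻ z in K, ENNReal.ofReal (‖φ.symm z.1 i‖ ^ 2) := by
      rw [fub hK (fun z => ENNReal.ofReal (‖φ.symm z.1 i‖ ^ 2)) ((hfc i).measurable.comp measurable_fst).ennreal_ofReal]
      exact lintegral_congr fun t => hal i t
    have h5 : ENNReal.ofReal (A i) = (volume K)⁻¹ * ∫⁻ z in K, ENNReal.ofReal (‖φ.symm z.1 i‖ ^ 2) := by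
      rw [hA, ofReal_integral_eq_lintegral_ofReal]
      · unfold un
        rw [lintegral_smul_measure, smul_eq_mul]
      · exact Pool.Agent.R754.KG.un_int hV0 hK.comp.isBounded ((hfc i).comp continuous_fst)
      · exact Eventually.of_forall fun z => sq_nonneg _
    rw [h5]
    gcongr
    exact h2.trans h4.le
  have hint2 : ∀ i, ∫⁻ t, ENNReal.ofReal (a i t / A i) ∂(bl K) ≤ 1 := by
    intro i
    rcases (hA0 i).eq_or_lt with h2 | h2
    · rw [← h2]
      simp
    · have e : ∀ t, ENNReal.ofReal (a i t / A i) = ENNReal.ofReal (a i t) * (ENNReal.ofReal (A i))⁻¹ := fun t => by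
        rw [ENNReal.ofReal_div_of_pos h2, div_eq_mul_inv]
      simp only [e]
      rw [lintegral_mul_const _ (ham i).ennreal_ofReal]
      have h3 : ENNReal.ofReal (A i) ≠ 0 := by
        rw [Ne, ENNReal.ofReal_eq_zero, not_le]
        exact h2
      calc (∫⁻ t, ENNReal.ofReal (a i t) ∂(bl K)) * (ENNReal.ofReal (A i))⁻¹ ≤
          ENNReal.ofReal (A i) * (ENNReal.ofReal (A i))⁻¹ := by
            gcongr
            exact hint1 i
        _ = 1 := ENNReal.mul_inv_cancel h3 ENNReal.ofReal_ne_top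
  -- the degenerate factors
  have hdeg : ∀ i, A i = 0 → ∀ t, a i t = 0 := by
    intro i hAi t
    by_cases hall : ∀ x : E N, φ.symm x i = 0
    · rw [ha, hal]
      have : ∀ x : E N, ENNReal.ofReal (‖φ.symm x i‖ ^ 2) = 0 := fun x => by
        rw [hall x]
        simp
      simp only [this, lintegral_zero, ENNReal.toReal_zero, zero_div]
    · exfalso
      push Not at hall
      obtain ⟨x0, hx0⟩ := hall
      let ψ : E N × E M →ₗ[ℝ] E (m i) :=
        (LinearMap.proj i : (∀ i, E (m i)) →ₗ[ℝ] E (m i)) ∘ₗ (φ.symm : E N →ₗ[ℝ] (∀ i, E (m i))) ∘ₗ LinearMap.fst ℝ (E N) (E M)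
      have hψ : ∀ z, ψ z = φ.symm z.1 i := fun z => rfl
      have hker : LinearMap.ker ψ ≠ ⊤ := by
        intro h2
        have h3 : (x0, (0 : E M)) ∈ LinearMap.ker ψ := by
          rw [h2]
          exact Submodule.mem_top
        rw [LinearMap.mem_ker, hψ] at h3
        exact hx0 h3
      have hv := Measure.addHaar_submodule (volume : Measure (E N × E M)) (LinearMap.ker ψ) hker
      rw [hA, integral_eq_zero_iff_of_nonneg (fun z => sq_nonneg _)
        (Pool.Agent.R754.KG.un_int hV0 hK.comp.isBounded ((hfc i).comp continuous_fst))] at hAi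
      have h2 : ∀ᵐ z ∂(un K), z ∈ (LinearMap.ker ψ : Set (E N × E M)) := by
        filter_upwards [hAi] with z hz
        have hz' : ‖φ.symm z.1 i‖ ^ 2 = 0 := hz
        rw [SetLike.mem_coe, LinearMap.mem_ker, hψ]
        exact norm_eq_zero.1 (pow_eq_zero_iff (two_ne_zero) |>.1 hz')
      have h3 : un K (LinearMap.ker ψ : Set (E N × E M)) = 0 := by
        unfold un
        rw [Measure.smul_apply, smul_eq_mul]
        have : (volume.restrict K) (LinearMap.ker ψ : Set (E N × E M)) = 0 :=
          le_antisymm ((Measure.restrict_apply_le _ _).trans hv.le) zero_le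
        rw [this, mul_zero]
      have h4 : un K (univ : Set (E N × E M)) = 0 := by
        have h5 : un K (LinearMap.ker ψ : Set (E N × E M))ᶜ = 0 := mem_ae_iff.1 h2
        have h6 : (univ : Set (E N × E M)) = (LinearMap.ker ψ : Set (E N × E M)) ∪ (LinearMap.ker ψ : Set (E N × E M))ᶜ :=
          (union_compl_self _).symm
        rw [h6]
        exact measure_union_null h3 h5
      rw [measure_univ] at h4
      exact one_ne_zero h4
  -- the function `q`
  have hq0 : ∀ i t, 0 ≤ a i t / A i := fun i t => div_nonneg (ha0 i t) (hA0 i)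
  have hqm : Measurable fun t => ∑ i, a i t / A i :=
    Finset.measurable_sum _ fun i _ => (ham i).div_const _
  have hql : ∫⁻ t, ENNReal.ofReal (∑ i, a i t / A i) ∂(bl K) ≤ h := by
    have e : ∀ t, ENNReal.ofReal (∑ i, a i t / A i) = ∑ i, ENNReal.ofReal (a i t / A i) := fun t =>
      ENNReal.ofReal_sum_of_nonneg fun i _ => hq0 i t
    simp only [e]
    rw [lintegral_finsetSum _ fun i _ => ((ham i).div_const _).ennreal_ofReal]
    calc ∑ i, ∫⁻ t, ENNReal.ofReal (a i t / A i) ∂(bl K) ≤ ∑ _i : Fin h, (1 : ℝ≥0∞) :=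
          Finset.sum_le_sum fun i _ => hint2 i
      _ = h := by simp
  refine ⟨fun t => ∑ i, a i t / A i, hqm, fun t => Finset.sum_nonneg fun i _ => hq0 i t, ?_, ?_, ?_⟩
  · refine ⟨hqm.aestronglyMeasurable, ?_⟩
    rw [hasFiniteIntegral_iff_ofReal (Eventually.of_forall fun t => Finset.sum_nonneg fun i _ => hq0 i t)]
    exact lt_of_le_of_lt hql (ENNReal.natCast_lt_top h)
  · rw [integral_eq_lintegral_of_nonneg_ae (Eventually.of_forall fun t => Finset.sum_nonneg fun i _ => hq0 i t)
      hqm.aestronglyMeasurable]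
    have h2 := ENNReal.toReal_mono (ENNReal.natCast_ne_top h) hql
    rw [ENNReal.toReal_natCast] at h2
    linarith
  · intro t ht θ
    rw [(hfib t ht).2 θ, hfst θ, Finset.sum_mul]
    apply Finset.sum_le_sum
    intro i _
    rw [haf i t ht]
    simp only [← hA]
    rcases (hA0 i).eq_or_lt with h2 | h2
    · rw [hdeg i h2.symm t]
      simp
    · have h3 : A i * nn i θ ≤ ∑ j, A j * nn j θ :=
        Finset.single_le_sum (f := fun j => A j * nn j θ) (fun j _ => mul_nonneg (hA0 j) (hnn j θ)) (Finset.mem_univ i)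
      calc a i t * nn i θ = a i t / A i * (A i * nn i θ) := by
            field_simp
        _ ≤ _ := mul_le_mul_of_nonneg_left h3 (hq0 i t)

end Pool.Agent.R755.KS
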