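import Pool.Agent.H59.L.S8.R755.KS.Dis
import Pool.Agent.H59.L.S8.R755.KF.M

/-!
# Centred fibrations: assembly of the concentration estimate
-/

set_option autoImplicit false

namespace Pool.Agent.R755.KS

open MeasureTheory Set Filter Topology
open scoped ENNReal InnerProductSpace
open Pool.Agent.H888R2.KT (gs gc)
open Pool.Agent.R754.KG (E un sl Rv un_prob un_int un_lint_ofReal)
open Pool.Agent.R755.KF (BL PB KW CB lw ey)

namespace KS6aux

open KS9aux KS5aux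

variable {N M k : ℕ} {K : Set (E N × E M)}

theorem bl_cint (h : CB K) {G : E M → ℝ} (hG : Continuous G) : Integrable G (bl K) := by
  unfold bl
  rw [integrable_map_measure hG.aestronglyMeasurable measurable_snd.aemeasurable]
  exact un_int h.pos.ne' h.comp.isBounded (hG.comp continuous_snd)

/-- the variance is nonnegative -/
theorem var_nn {X : Type} [MeasurableSpace X] {μ : Measure X} [IsProbabilityMeasure μ] {F : X → ℝ}
    (hF : Integrable F μ) (hFF : Integrable (fun x => F x ^ 2) μ) :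
    (∫ x, F x ∂μ) ^ 2 ≤ ∫ x, F x ^ 2 ∂μ := by
  have h1 := Pool.Agent.R755.KF.K5Waux.sq_exp hF hFF (∫ x, F x ∂μ)
  have h2 : 0 ≤ ∫ x, (F x - ∫ x, F x ∂μ) ^ 2 ∂μ := integral_nonneg fun x => sq_nonneg _
  nlinarith

section

variable (h : CB K) (T : E N × E M →ₗ[ℝ] E k) {s : ℝ}
  (hcen : ∀ t, volume (sl K t) ≠ 0 → ∀ θ : E N, ∫ x, ⟪x, θ⟫_ℝ ∂(un (sl K t)) = 0)
  (hvar : ∀ θ : E k, ‖θ‖ = 1 →
    (∫ z, ⟪T z, θ⟫_ℝ ^ 2 ∂(un K)) - (∫ z, ⟪T z, θ⟫_ℝ ∂(un K)) ^ 2 ≤ s)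

include h hcen hvar

theorem cov_fst (θ : E k) (hθ : ‖θ‖ = 1) : ∫ z, ⟪T (z.1, 0), θ⟫_ℝ ^ 2 ∂(un K) ≤ s := by
  have h1 := hvar θ hθ
  rw [cov_split h T hcen θ] at h1
  have hpb := bl_pr h
  have hTc : Continuous T := T.continuous_of_finiteDimensional
  have hb : Continuous fun t : E M => ⟪T ((0 : E N), t), θ⟫_ℝ :=
    (hTc.comp (by fun_prop : Continuous fun t : E M => ((0 : E N), t))).inner continuous_const
  have h2 := var_nn (bl_cint h hb) (bl_cint h (hb.pow 2))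
  linarith

theorem cov_snd (θ : E k) (hθ : ‖θ‖ = 1) : (∫ t, ⟪T (0, t), θ⟫_ℝ ^ 2 ∂(bl K)) -
    (∫ t, ⟪T (0, t), θ⟫_ℝ ∂(bl K)) ^ 2 ≤ s := by
  have h1 := hvar θ hθ
  rw [cov_split h T hcen θ] at h1
  have h2 : 0 ≤ ∫ z, ⟪T (z.1, 0), θ⟫_ℝ ^ 2 ∂(un K) := integral_nonneg fun z => sq_nonneg _
  linarith

theorem gd_of {A0 δ' Q R0 : ℝ} {q : E M → ℝ} (hkw : ∀ t, volume (sl K t) ≠ 0 → KW A0 δ' (sl K t))
    (hq : QC Q K q) {t : E M} (ht : 0 < Rv K t) (hR0 : 0 ≤ R0) (hqt : q t ≤ R0) :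
    Gd K T A0 δ' (R0 * s) t := by
  have hv : volume (sl K t) ≠ 0 := by
    rw [R_vol h t]
    exact (ENNReal.ofReal_pos.2 ht).ne'
  refine ⟨ht, hkw t hv, hcen t hv, fun θ hθ => ?_⟩
  have e1 : ∀ x : E N, ⟪T (x, 0), θ⟫_ℝ = ⟪x, LinearMap.adjoint (Tl T) θ⟫_ℝ := by
    intro x
    rw [LinearMap.adjoint_inner_right, Tl_apply]
  have h1 := hq.cov t hv (LinearMap.adjoint (Tl T) θ)
  have h2 := cov_fst h T hcen hvar θ hθ
  simp only [e1] at h2 ⊢
  refine h1.trans ?_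
  have h3 : 0 ≤ ∫ z, ⟪z.1, LinearMap.adjoint (Tl T) θ⟫_ℝ ^ 2 ∂(un K) :=
    integral_nonneg fun z => sq_nonneg _
  exact mul_le_mul hqt h2 h3 hR0

end

/-- Markov's inequality for `q` -/
theorem mkv (h : CB K) {Q R0 : ℝ} {q : E M → ℝ} (hq : QC Q K q) (hR0 : 0 < R0) :
    (bl K).real {t | R0 < q t} ≤ Q / R0 := by
  have hpb := bl_pr h
  have h1 := mul_meas_ge_le_integral_of_nonneg (Eventually.of_forall hq.nn) hq.int R0
  have h2 : (bl K).real {t | R0 < q t} ≤ (bl K).real {t | R0 ≤ q t} :=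
    measureReal_mono (fun t ht => le_of_lt (show R0 < q t from ht))
  rw [le_div_iff₀ hR0]
  have h3 := hq.le
  nlinarith

/-- means of bounded functions -/
theorem mf_meas1 (h : CB K) {F : E N × E M → ℝ} (hF : Continuous F) (h1 : ∀ z, -1 ≤ F z) :
    Measurable (mf K F) := by
  have hc : Continuous fun z => F z + 1 := by fun_prop
  have hm : MeasurableSet {t : E M | Rv K t ≠ 0} := (R_meas h) (measurableSet_singleton 0).compl
  have e : mf K F = fun t => mf K (fun z => F z + 1) t -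
      {t : E M | Rv K t ≠ 0}.indicator (fun _ => (1 : ℝ)) t := by
    funext t
    by_cases ht : volume (sl K t) = 0
    · have h2 : Rv K t = 0 := by
        unfold Rv
        rw [ht, ENNReal.toReal_zero]
      rw [mf_zero ht, mf_zero ht, indicator_of_notMem (by simpa using h2), sub_zero]
    · have h2 : Rv K t ≠ 0 := (ENNReal.toReal_pos ht (sl_fin h t)).ne'
      rw [indicator_of_mem (show t ∈ {t : E M | Rv K t ≠ 0} from h2)]
      have hp : IsProbabilityMeasure (un (sl K t)) := un_prob ht (sl_fin h t)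
      unfold mf
      rw [integral_add (un_int ht (sl_bd h t) (mf_cont hF t)) (integrable_const _)]
      simp
  rw [e]
  exact (mf_meas h hc fun z => by linarith [h1 z]).sub (measurable_const.indicator hm)

theorem mf_abs (h : CB K) {F : E N × E M → ℝ} (h1 : ∀ z, |F z| ≤ 1) (t : E M) :
    |mf K F t| ≤ 1 := by
  by_cases ht : volume (sl K t) = 0
  · rw [mf_zero ht, abs_zero]
    exact zero_le_one
  · have hp : IsProbabilityMeasure (un (sl K t)) := un_prob ht (sl_fin h t)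
    rw [← Real.norm_eq_abs]
    refine (norm_integral_le_of_norm_le_const (C := 1)
      (Eventually.of_forall fun x => h1 _)).trans ?_
    simp

/-- the variance in the base -/
theorem bvar (h1 : S_BV) (h2 : S_LOC) (h : CB K) (T : E N × E M →ₗ[ℝ] E k)
    {s A0 Q δ' R0 r τ C κ : ℝ} {q : E M → ℝ} (hs : 0 < s) (hA0 : 0 < A0) (hδ0 : 0 ≤ δ')
    (hδ1 : δ' ≤ 1 / 10 ^ 11) (hR0 : 1 ≤ R0) (hr : 0 < r) (hr1 : r ≤ 1 / 16000) (hτ : 0 < τ)
    (hrτ : r * τ ≤ 1) (hC1 : 64 * (A0 * R0) ≤ C) (hC2 : 64 * R0 ≤ C)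
    (hC3 : 64000 * r * (16 * A0) ≤ C) (hκ0 : 0 ≤ κ) (hκ : (A0 * R0 + C) * κ ^ 2 + δ' ≤ τ ^ 2)
    (hcen : ∀ t, volume (sl K t) ≠ 0 → ∀ θ : E N, ∫ x, ⟪x, θ⟫_ℝ ∂(un (sl K t)) = 0)
    (hkw : ∀ t, volume (sl K t) ≠ 0 → KW A0 δ' (sl K t)) (hq : QC Q K q) (hkm : KM A0 δ' (bl K))
    (hvar : ∀ θ : E k, ‖θ‖ = 1 →
      (∫ z, ⟪T z, θ⟫_ℝ ^ 2 ∂(un K)) - (∫ z, ⟪T z, θ⟫_ℝ ∂(un K)) ^ 2 ≤ s)
    {f : E k → ℝ} (hf : ContDiff ℝ 1 f) (hfb : ∀ y, |f y| ≤ 1)
    (hfd : ∀ y, ‖fderiv ℝ f y‖ ≤ κ / Real.sqrt s) (hgc : Continuous (gs (C * s) f))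
    (hgb : ∀ y, |gs (C * s) f y| ≤ 1) :
    (∫ t, mf K (fun z => gs (C * s) f (T z)) t ^ 2 ∂(bl K)) -
      (∫ t, mf K (fun z => gs (C * s) f (T z)) t ∂(bl K)) ^ 2 ≤
      3 / 2 * (2 * τ / r + r + 8 / r ^ 2 * (bl K).real {t | R0 < q t}) + 6 * δ' := by
  have hTc : Continuous T := T.continuous_of_finiteDimensional
  have hFc : Continuous fun z : E N × E M => gs (C * s) f (T z) := hgc.comp hTc
  have hC : 0 < C := by linarith
  have hCs : 0 < C * s := by positivity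
  have hBm : MeasurableSet {t | R0 < q t} := measurableSet_lt measurable_const hq.meas
  have hD2 : Real.sqrt (C * s / 8000) ^ 2 = C * s / 8000 := Real.sq_sqrt (by positivity)
  have hey : ∀ t, ey (C * s) (lw K T t) f = mf K (fun z => gs (C * s) f (T z)) t := fun t =>
    Pool.Agent.R755.KF.K5Waux.lw_int T t hgc
  have hexp : Real.exp r ≤ 1 + 1 / 8000 := by
    have h3 := Real.exp_bound_div_one_sub_of_interval hr.le (by linarith : r < 1)
    refine h3.trans ?_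
    rw [div_le_iff₀ (by linarith)]
    nlinarith
  refine h1 N M k K (T ∘ₗ LinearMap.inr ℝ (E N) (E M)) (C * s / (64000 * r)) r τ (1 / 8000)
    (Real.sqrt (C * s / 8000)) (A0 * s) δ' _ {t | R0 < q t} h (by positivity) hr (by linarith)
    hτ.le hrτ (by norm_num) (Real.sqrt_pos.2 (by positivity)) hexp ?_ (by positivity) ?_ hδ0
    (mf_meas1 h hFc fun z => (abs_le.1 (hgb _)).1) (mf_abs h fun z => hgb _) hBm ?_ ?_
  · rw [hD2]
    refine le_of_eq ?_
    field_simp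
    norm_num
  · rw [le_div_iff₀ (by positivity)]
    nlinarith [mul_le_mul_of_nonneg_right hC3 hs.le]
  · intro C' v hv hv1
    exact hkm k (T ∘ₗ LinearMap.inr ℝ (E N) (E M)) s hs (cov_snd h T hcen hvar) C' v hv hv1
  · intro a b ha hb hpa hpb hmid hP
    have ha' : q a ≤ R0 := not_lt.1 ha
    have hb' : q b ≤ R0 := not_lt.1 hb
    have ga := gd_of h T hcen hvar hkw hq hpa (by linarith) ha'
    have gb := gd_of h T hcen hvar hkw hq hpb (by linarith) hb'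
    have hL0 : 0 ≤ κ / Real.sqrt s := by positivity
    have hL2 : (κ / Real.sqrt s) ^ 2 = κ ^ 2 / s := by rw [div_pow, Real.sq_sqrt hs.le]
    have h5 := h2 N M k K T A0 δ' (R0 * s) (C * s) (κ / Real.sqrt s) f a b h hA0 hδ0 hδ1
      (by positivity) (by nlinarith [mul_le_mul_of_nonneg_right hC1 hs.le])
      (by nlinarith [mul_le_mul_of_nonneg_right hC2 hs.le]) ga gb hmid ?_ hf hL0 hfb hfd
    · rw [hey, hey, hL2] at h5
      have h6 : (A0 * (R0 * s) + C * s) * (κ ^ 2 / s) = (A0 * R0 + C) * κ ^ 2 := by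
        field_simp
      rw [h6] at h5
      rw [abs_sub_comm]
      exact abs_le_of_sq_le_sq (h5.trans hκ) hτ.le
    · have h6 := pow_le_pow_left₀ (norm_nonneg _) hP 2
      rw [hD2] at h6
      exact h6

/-- the variance in one fibre -/
theorem fvar (h3 : S_LV) (h : CB K) (T : E N × E M →ₗ[ℝ] E k)
    {s A0 Q δ' R0 C κ : ℝ} {q : E M → ℝ} (hs : 0 < s) (hA0 : 0 < A0) (hδ0 : 0 ≤ δ')
    (hR0 : 1 ≤ R0) (hC : 0 < C) (hκ0 : 0 ≤ κ)
    (hcen : ∀ t, volume (sl K t) ≠ 0 → ∀ θ : E N, ∫ x, ⟪x, θ⟫_ℝ ∂(un (sl K t)) = 0)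
    (hkw : ∀ t, volume (sl K t) ≠ 0 → KW A0 δ' (sl K t)) (hq : QC Q K q)
    (hvar : ∀ θ : E k, ‖θ‖ = 1 →
      (∫ z, ⟪T z, θ⟫_ℝ ^ 2 ∂(un K)) - (∫ z, ⟪T z, θ⟫_ℝ ∂(un K)) ^ 2 ≤ s)
    {f : E k → ℝ} (hf : ContDiff ℝ 1 f) (hfb : ∀ y, |f y| ≤ 1)
    (hfd : ∀ y, ‖fderiv ℝ f y‖ ≤ κ / Real.sqrt s) (hgc : Continuous (gs (C * s) f))
    (hgc2 : Continuous (gs (C * s) fun y => f y ^ 2)) (hgb : ∀ y, gs (C * s) (fun y => f y ^ 2) y ≤ 1)
    (t : E M) (ht : volume (sl K t) ≠ 0) :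
    mf K (fun z => gs (C * s) (fun y => f y ^ 2) (T z)) t -
      mf K (fun z => gs (C * s) f (T z)) t ^ 2 ≤
      (A0 * R0 + C) * κ ^ 2 + δ' + {t | R0 < q t}.indicator (fun _ => (1 : ℝ)) t := by
  have hTc : Continuous T := T.continuous_of_finiteDimensional
  have hRv : 0 < Rv K t := ENNReal.toReal_pos ht (sl_fin h t)
  by_cases hqt : R0 < q t
  · rw [indicator_of_mem (show t ∈ {t | R0 < q t} from hqt)]
    have h4 : mf K (fun z => gs (C * s) (fun y => f y ^ 2) (T z)) t ≤ 1 :=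
      mf_le h (hgc2.comp hTc) zero_le_one (fun z _ => hgb _) t
    have h5 : 0 ≤ (A0 * R0 + C) * κ ^ 2 := by positivity
    nlinarith [sq_nonneg (mf K (fun z => gs (C * s) f (T z)) t)]
  · rw [indicator_of_notMem (show t ∉ {t | R0 < q t} from hqt), add_zero]
    have gt := gd_of h T hcen hvar hkw hq hRv (by linarith) (not_lt.1 hqt)
    have hL0 : 0 ≤ κ / Real.sqrt s := by positivity
    have hL2 : (κ / Real.sqrt s) ^ 2 = κ ^ 2 / s := by rw [div_pow, Real.sq_sqrt hs.le]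
    have h5 := h3 N M k K T A0 δ' (R0 * s) (C * s) (κ / Real.sqrt s) f t h hA0 hδ0 (by positivity)
      (by positivity) gt hf hL0 hfb hfd
    have e1 : ey (C * s) (lw K T t) f = mf K (fun z => gs (C * s) f (T z)) t :=
      Pool.Agent.R755.KF.K5Waux.lw_int T t hgc
    have e2 : ey (C * s) (lw K T t) (fun y => f y ^ 2) =
        mf K (fun z => gs (C * s) (fun y => f y ^ 2) (T z)) t :=
      Pool.Agent.R755.KF.K5Waux.lw_int T t hgc2
    have h6 : (A0 * (R0 * s) + C * s) * (κ ^ 2 / s) = (A0 * R0 + C) * κ ^ 2 := by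
      field_simp
    rw [e1, e2, hL2, h6] at h5
    exact h5

theorem fin_num {δ0 r τ δ' κ2 ρB : ℝ} (hδ0 : 0 < δ0) (hr : r = δ0 / 16000)
    (hδ01 : δ0 ≤ 1) (hτ : τ = r * δ0 / 48) (hδ' : δ' ≤ δ0 / 96) (hκ : κ2 ≤ δ0 / 16)
    (hρ : ρB ≤ δ0 * r ^ 2 / 192) :
    κ2 + δ' + ρB + (3 / 2 * (2 * τ / r + r + 8 / r ^ 2 * ρB) + 6 * δ') ≤ δ0 := by
  have hrp : 0 < r := by rw [hr]; positivity
  have h1 : 2 * τ / r = δ0 / 24 := by
    rw [hτ]
    field_simp
    norm_num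
  have h2 : 8 / r ^ 2 * ρB ≤ δ0 / 24 := by
    calc 8 / r ^ 2 * ρB ≤ 8 / r ^ 2 * (δ0 * r ^ 2 / 192) := by gcongr
      _ = δ0 / 24 := by
        field_simp
        norm_num
  have h3 : r ^ 2 ≤ 1 := by
    have : r ≤ 1 := by rw [hr]; linarith
    exact pow_le_one₀ hrp.le this
  have h4 : δ0 * r ^ 2 / 192 ≤ δ0 / 192 := by
    have : δ0 * r ^ 2 ≤ δ0 * 1 := mul_le_mul_of_nonneg_left h3 hδ0.le
    linarith
  rw [h1]
  linarith

end KS6aux

open KS6aux KS9aux KS5aux in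
/-- **KS6.** Concentration of functions of `T z + √h Z`. -/
theorem yb2 (h1 : S_BV) (h2 : S_LOC) (h3 : S_LV) : S_YB2 := by
  intro δ hδ
  obtain ⟨δ0, hδ0⟩ : ∃ δ0, δ0 = min δ 1 := ⟨_, rfl⟩
  have hδ0p : 0 < δ0 := by rw [hδ0]; exact lt_min hδ one_pos
  have hδ01 : δ0 ≤ 1 := by rw [hδ0]; exact min_le_right _ _
  have hδ0δ : δ0 ≤ δ := by rw [hδ0]; exact min_le_left _ _
  obtain ⟨r, hr⟩ : ∃ r, r = δ0 / 16000 := ⟨_, rfl⟩
  have hrp : 0 < r := by rw [hr]; positivity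
  have hr1 : r ≤ 1 / 16000 := by rw [hr]; linarith
  obtain ⟨τ, hτ⟩ : ∃ τ, τ = r * δ0 / 48 := ⟨_, rfl⟩
  have hτp : 0 < τ := by rw [hτ]; positivity
  have hτ1 : τ ≤ 1 := by
    rw [hτ]
    nlinarith
  obtain ⟨δ', hδ'⟩ : ∃ δ', δ' = min (min (τ ^ 2 / 2) (δ0 / 96)) (1 / 10 ^ 11) := ⟨_, rfl⟩
  have hδ'p : 0 < δ' := by
    rw [hδ']
    exact lt_min (lt_min (by positivity) (by positivity)) (by norm_num)
  have hδ'1 : δ' ≤ τ ^ 2 / 2 := by rw [hδ']; exact (min_le_left _ _).trans (min_le_left _ _)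
  have hδ'2 : δ' ≤ δ0 / 96 := by rw [hδ']; exact (min_le_left _ _).trans (min_le_right _ _)
  have hδ'3 : δ' ≤ 1 / 10 ^ 11 := by rw [hδ']; exact min_le_right _ _
  refine ⟨δ', hδ'p, fun A0 Q hA0 hQ => ?_⟩
  obtain ⟨R0, hR0⟩ : ∃ R0, R0 = max 1 (192 * Q / (δ0 * r ^ 2)) := ⟨_, rfl⟩
  have hR01 : 1 ≤ R0 := by rw [hR0]; exact le_max_left _ _
  have hR0p : 0 < R0 := by linarith
  have hR0q : Q / R0 ≤ δ0 * r ^ 2 / 192 := by
    have h4 : 192 * Q / (δ0 * r ^ 2) ≤ R0 := by rw [hR0]; exact le_max_right _ _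
    rw [div_le_iff₀ (by positivity)] at h4
    rw [div_le_iff₀ hR0p]
    linarith
  obtain ⟨C, hC⟩ : ∃ C, C = 64 * (A0 + 1) * R0 + 64000 * r * (16 * A0) := ⟨_, rfl⟩
  have hCp : 0 < C := by rw [hC]; positivity
  have hC1 : 64 * (A0 * R0) ≤ C := by
    rw [hC]
    have : 0 ≤ 64000 * r * (16 * A0) := by positivity
    nlinarith
  have hC2 : 64 * R0 ≤ C := by
    rw [hC]
    have h4 : 0 ≤ 64000 * r * (16 * A0) := by positivity
    have h5 : 0 < A0 * R0 := by positivity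
    nlinarith
  have hC3 : 64000 * r * (16 * A0) ≤ C := by
    rw [hC]
    have : 0 ≤ 64 * (A0 + 1) * R0 := by positivity
    linarith
  obtain ⟨κ, hκ⟩ : ∃ κ, κ = Real.sqrt (min (τ ^ 2 / 2) (δ0 / 16) / (A0 * R0 + C)) := ⟨_, rfl⟩
  have hmp : 0 < min (τ ^ 2 / 2) (δ0 / 16) := lt_min (by positivity) (by positivity)
  have hden : 0 < A0 * R0 + C := by positivity
  have hκp : 0 < κ := by rw [hκ]; exact Real.sqrt_pos.2 (div_pos hmp hden)
  have hκ2 : (A0 * R0 + C) * κ ^ 2 = min (τ ^ 2 / 2) (δ0 / 16) := by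
    rw [hκ, Real.sq_sqrt (div_pos hmp hden).le, mul_div_cancel₀ _ hden.ne']
  have hκ3 : (A0 * R0 + C) * κ ^ 2 ≤ τ ^ 2 / 2 := by rw [hκ2]; exact min_le_left _ _
  have hκ4 : (A0 * R0 + C) * κ ^ 2 ≤ δ0 / 16 := by rw [hκ2]; exact min_le_right _ _
  refine ⟨C, κ, hCp, hκp, ?_⟩
  rintro N M k K h hfib ⟨q, hq⟩ hkm T s hs hvar f hf hfb hfd
  have hcen : ∀ t, volume (sl K t) ≠ 0 → ∀ θ : E N, ∫ x, ⟪x, θ⟫_ℝ ∂(un (sl K t)) = 0 :=
    fun t ht => (hfib t ht).2
  have hkw : ∀ t, volume (sl K t) ≠ 0 → KW A0 δ' (sl K t) := fun t ht => (hfib t ht).1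
  have hCs : 0 < C * s := by positivity
  have hTc : Continuous T := T.continuous_of_finiteDimensional
  have hfc : Continuous f := hf.continuous
  have hfb2 : ∀ y, |f y ^ 2| ≤ 1 := fun y => by
    rw [abs_pow]
    exact pow_le_one₀ (abs_nonneg _) (hfb y)
  have hgc : Continuous (gs (C * s) f) := Pool.Agent.H888R2.KT.N7x.cont_gs _ hCs f hfc 1 hfb
  have hgc2 : Continuous (gs (C * s) fun y => f y ^ 2) :=
    Pool.Agent.H888R2.KT.N7x.cont_gs _ hCs _ (by fun_prop) 1 hfb2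
  have hgb : ∀ x, |gs (C * s) f x| ≤ 1 := by
    intro x
    rw [abs_le]
    constructor
    · rw [← Pool.Agent.R755.KF.Maux.gs_const (C * s) hCs (-1) x]
      exact Pool.Agent.R755.KF.Maux.gs_mono _ hCs _ _ continuous_const hfc 1 (fun _ => by simp) hfb
        (fun y => (abs_le.1 (hfb y)).1) x
    · conv_rhs => rw [← Pool.Agent.R755.KF.Maux.gs_const (C * s) hCs 1 x]
      exact Pool.Agent.R755.KF.Maux.gs_mono _ hCs _ _ hfc continuous_const 1 hfb (fun _ => by simp)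
        (fun y => (abs_le.1 (hfb y)).2) x
  have hgb2 : ∀ x, gs (C * s) (fun y => f y ^ 2) x ≤ 1 := by
    intro x
    conv_rhs => rw [← Pool.Agent.R755.KF.Maux.gs_const (C * s) hCs 1 x]
    exact Pool.Agent.R755.KF.Maux.gs_mono _ hCs _ _ (by fun_prop) continuous_const 1 hfb2
      (fun _ => by simp) (fun y => (abs_le.1 (hfb2 y)).2) x
  have hpb := bl_pr h
  obtain ⟨g, hg⟩ : ∃ g : E M → ℝ, g = mf K (fun z => gs (C * s) f (T z)) := ⟨_, rfl⟩
  have hFc : Continuous fun z : E N × E M => gs (C * s) f (T z) := hgc.comp hTc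
  have hFc2 : Continuous fun z : E N × E M => gs (C * s) (fun y => f y ^ 2) (T z) := hgc2.comp hTc
  have hgm : Measurable g := by
    rw [hg]
    exact mf_meas1 h hFc fun z => (abs_le.1 (hgb _)).1
  have hg1 : ∀ t, |g t| ≤ 1 := by
    rw [hg]
    exact mf_abs h fun z => hgb _
  have ig : Integrable g (bl K) := Integrable.of_bound hgm.aestronglyMeasurable 1
    (Eventually.of_forall hg1)
  have ig2 : Integrable (fun t => g t ^ 2) (bl K) :=
    Integrable.of_bound (hgm.pow_const 2).aestronglyMeasurable 1 (Eventually.of_forall fun t => by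
      rw [Real.norm_eq_abs, abs_pow]
      exact pow_le_one₀ (abs_nonneg _) (hg1 t))
  have hBm : MeasurableSet {t | R0 < q t} := measurableSet_lt measurable_const hq.meas
  have hv := bvar h1 h2 h T hs hA0 hδ'p.le hδ'3 hR01 hrp hr1 hτp (by nlinarith) hC1 hC2 hC3 hκp.le
    (by linarith) hcen hkw hq hkm hvar hf hfb hfd hgc hgb
  rw [← hg] at hv
  obtain ⟨c, hc⟩ : ∃ c : ℝ, c = ∫ t, g t ∂(bl K) := ⟨_, rfl⟩
  refine ⟨c, ?_⟩
  have hqc : Continuous fun y => (f y - c) ^ 2 := by fun_prop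
  have hqb : ∀ y, |(f y - c) ^ 2| ≤ (1 + |c|) ^ 2 := fun y => by
    rw [abs_pow]
    refine pow_le_pow_left₀ (abs_nonneg _) ?_ 2
    exact (abs_sub _ _).trans (by linarith [hfb y])
  have hgc3 : Continuous (gs (C * s) fun y => (f y - c) ^ 2) :=
    Pool.Agent.H888R2.KT.N7x.cont_gs _ hCs _ hqc _ hqb
  have hFc3 : Continuous fun z : E N × E M => gs (C * s) (fun y => (f y - c) ^ 2) (T z) :=
    hgc3.comp hTc
  have hF0 : ∀ z : E N × E M, 0 ≤ gs (C * s) (fun y => (f y - c) ^ 2) (T z) := fun z =>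
    Pool.Agent.R755.KF.Maux.gs_nonneg _ _ (fun y => sq_nonneg _) _
  rw [dis h hFc3 hF0]
  have iB : Integrable ({t | R0 < q t}.indicator fun _ => (1 : ℝ)) (bl K) :=
    (integrable_const 1).indicator hBm
  have ic : Integrable (fun t => (g t - c) ^ 2) (bl K) := by
    have e : (fun t => (g t - c) ^ 2) = fun t => g t ^ 2 + (-(2 * c) * g t + c ^ 2) := by
      funext t
      ring
    rw [e]
    exact ig2.add ((ig.const_mul _).add (integrable_const _))
  have key : ∫ t, mf K (fun z => gs (C * s) (fun y => (f y - c) ^ 2) (T z)) t ∂(bl K) ≤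
      ∫ t, (((A0 * R0 + C) * κ ^ 2 + δ' + {t | R0 < q t}.indicator (fun _ => (1 : ℝ)) t) +
        (g t - c) ^ 2) ∂(bl K) := by
    refine integral_mono_ae (mf_int h hFc3 hF0)
      (((integrable_const _).add iB).add ic) ?_
    filter_upwards [ae_pos h] with t ht
    have hpt : IsProbabilityMeasure (un (sl K t)) := un_prob ht (sl_fin h t)
    have h5 := fvar h3 h T hs hA0 hδ'p.le hR01 hCp hκp.le hcen hkw hq hvar hf hfb hfd hgc hgc2 hgb2
      t ht
    have i1 : Integrable (fun x : E N => gs (C * s) f (T (x, t))) (un (sl K t)) :=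
      un_int ht (sl_bd h t) (mf_cont hFc t)
    have i2 : Integrable (fun x : E N => gs (C * s) (fun y => f y ^ 2) (T (x, t)))
        (un (sl K t)) := un_int ht (sl_bd h t) (mf_cont hFc2 t)
    have e : mf K (fun z => gs (C * s) (fun y => (f y - c) ^ 2) (T z)) t =
        mf K (fun z => gs (C * s) (fun y => f y ^ 2) (T z)) t - 2 * c * g t + c ^ 2 := by
      rw [hg]
      unfold mf
      have e2 : ∀ x : E N, gs (C * s) (fun y => (f y - c) ^ 2) (T (x, t)) =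
          gs (C * s) (fun y => f y ^ 2) (T (x, t)) +
            (-(2 * c) * gs (C * s) f (T (x, t)) + c ^ 2) := by
        intro x
        rw [Pool.Agent.R755.KF.Maux.gs_sq _ hCs f hfc 1 hfb c _]
        ring
      have i3 : Integrable (fun x : E N => -(2 * c) * gs (C * s) f (T (x, t)) + c ^ 2)
          (un (sl K t)) := (i1.const_mul _).add (integrable_const _)
      simp only [e2]
      rw [integral_add i2 i3, integral_add (i1.const_mul _) (integrable_const _),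
        integral_const_mul]
      simp only [integral_const, probReal_univ, smul_eq_mul, one_mul]
      ring
    rw [← hg] at h5
    show mf K (fun z => gs (C * s) (fun y => (f y - c) ^ 2) (T z)) t ≤ _
    rw [e]
    nlinarith
  refine key.trans ?_
  have iD : Integrable (fun t => (A0 * R0 + C) * κ ^ 2 + δ' +
      {t | R0 < q t}.indicator (fun _ => (1 : ℝ)) t) (bl K) := (integrable_const _).add iB
  rw [integral_add iD ic, integral_add (integrable_const _) iB,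
    integral_indicator_const _ hBm, Pool.Agent.R755.KF.K5Waux.sq_exp ig ig2 c, ← hc]
  simp only [integral_const, probReal_univ, smul_eq_mul, one_mul, mul_one]
  rw [← hc] at hv
  have h6 := fin_num hδ0p hr hδ01 hτ hδ'2 hκ4 ((mkv h hq hR0p).trans hR0q)
  nlinarith

end Pool.Agent.R755.KS
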