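import Pool.Agent.H59.L.S8.R755.KF.Defs2

/-!
# Centred fibrations over a base of arbitrary dimension: statements

`K ⊂ ℝ^N × ℝ^M` is a convex body, `N` and `M` are arbitrary. All fibres over `ℝ^M` have barycentre `0`
and satisfy a weak Poincaré inequality for all linear images, and the law `bl K` of the second
component satisfies such an inequality. Then this is true for `K`, too.
-/

set_option autoImplicit false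

namespace Pool.Agent.R755.KS

open MeasureTheory Set Filter Topology
open scoped ENNReal InnerProductSpace
open Pool.Agent.H888R2.KT (gs gc)
open Pool.Agent.R754.KG (E un sl Rv)
open Pool.Agent.R755.KF (BL PB KW CB lw ey)

/-- the law of the second component of a point uniformly distributed in `K` -/
noncomputable def bl {N M : ℕ} (K : Set (E N × E M)) : Measure (E M) := Measure.map Prod.snd (un K)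

/-- KS1: from exponential moments to the variance -/
def S_RL : Prop := ∀ (M : ℕ) (ρ : Measure (E M)) (g : E M → ℝ) (B : Set (E M)) (r τ : ℝ),
  IsProbabilityMeasure ρ → Measurable g → (∀ t, |g t| ≤ 1) → MeasurableSet B → 0 < r → r ≤ 1 / 4 →
  0 ≤ τ → r * τ ≤ 1 →
  (∫ t in Bᶜ, Real.exp (r * g t) ∂ρ) * (∫ t in Bᶜ, Real.exp (-(r * g t)) ∂ρ) ≤ Real.exp (r * τ) →
  (∫ t, g t ^ 2 ∂ρ) - (∫ t, g t ∂ρ) ^ 2 ≤ 2 * τ / r + r + 8 / r ^ 2 * ρ.real B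

/-- weights of a Gaussian channel -/
noncomputable def gw {M k : ℕ} (h : ℝ) (P : E M →ₗ[ℝ] E k) (y : E k) (t : E M) : ℝ :=
  Real.exp (-(‖P t - y‖ ^ 2 / (2 * h)))

/-- KS2: the Prékopa–Leindler inequality in the base -/
def S_BPL : Prop := ∀ (N M k : ℕ) (K : Set (E N × E M)) (P : E M →ₗ[ℝ] E k) (y : E k)
  (h r τ η D : ℝ) (g : E M → ℝ) (B : Set (E M)), CB K → 0 < h → 0 < r → 0 ≤ τ → 0 < η → 0 < D →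
  Real.exp r ≤ 1 + η → 8 * r * h ≤ D ^ 2 → Measurable g → (∀ t, |g t| ≤ 1) → MeasurableSet B →
  (∀ a b, a ∉ B → b ∉ B → 0 < Rv K a → 0 < Rv K b →
    Rv K ((1 / 2 : ℝ) • (a + b)) ≤ (1 + η) * Real.sqrt (Rv K a * Rv K b) → ‖P (a - b)‖ ≤ D →
    |g a - g b| ≤ τ) →
  (∫ t in Bᶜ, Real.exp (r * g t) * gw h P y t ∂(bl K)) *
    (∫ t in Bᶜ, Real.exp (-(r * g t)) * gw h P y t ∂(bl K)) ≤
    Real.exp (r * τ) * (∫ t, gw h P y t ∂(bl K)) ^ 2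

/-- KS3: the Gaussian channel -/
def S_CHAN : Prop := ∀ (M k : ℕ) (ρ : Measure (E M)) (P : E M →ₗ[ℝ] E k) (g : E M → ℝ)
  (B : Set (E M)) (h A δ α β B0 : ℝ), PB B0 ρ → 0 < h → 0 ≤ A → 16 * A ≤ h → 0 ≤ δ → 0 ≤ α → 0 ≤ β →
  Measurable g → (∀ t, |g t| ≤ 1) → MeasurableSet B →
  (∀ (C : ℝ) (v : E k → ℝ), BL C v → (∀ y, |v y| ≤ 1) →
    (∫ t, v (P t) ^ 2 ∂ρ) - (∫ t, v (P t) ∂ρ) ^ 2 ≤ δ + A * ∫ t, ‖fderiv ℝ v (P t)‖ ^ 2 ∂ρ) →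
  (∀ y, (∫ t, g t ^ 2 * gw h P y t ∂ρ) * (∫ t, gw h P y t ∂ρ) -
      (∫ t, g t * gw h P y t ∂ρ) ^ 2 ≤
    (α * (∫ t, gw h P y t ∂ρ) + β * ∫ t in B, gw h P y t ∂ρ) * ∫ t, gw h P y t ∂ρ) →
  (∫ t, g t ^ 2 ∂ρ) - (∫ t, g t ∂ρ) ^ 2 ≤ 3 / 2 * (α + β * ρ.real B) + 6 * δ

/-- KS4: the variance in the base -/
def S_BV : Prop := ∀ (N M k : ℕ) (K : Set (E N × E M)) (P : E M →ₗ[ℝ] E k)
  (h r τ η D A δ : ℝ) (g : E M → ℝ) (B : Set (E M)), CB K → 0 < h → 0 < r → r ≤ 1 / 4 → 0 ≤ τ →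
  r * τ ≤ 1 → 0 < η → 0 < D → Real.exp r ≤ 1 + η → 8 * r * h ≤ D ^ 2 → 0 ≤ A → 16 * A ≤ h → 0 ≤ δ →
  Measurable g → (∀ t, |g t| ≤ 1) → MeasurableSet B →
  (∀ (C : ℝ) (v : E k → ℝ), BL C v → (∀ y, |v y| ≤ 1) →
    (∫ t, v (P t) ^ 2 ∂(bl K)) - (∫ t, v (P t) ∂(bl K)) ^ 2 ≤
      δ + A * ∫ t, ‖fderiv ℝ v (P t)‖ ^ 2 ∂(bl K)) →
  (∀ a b, a ∉ B → b ∉ B → 0 < Rv K a → 0 < Rv K b →
    Rv K ((1 / 2 : ℝ) • (a + b)) ≤ (1 + η) * Real.sqrt (Rv K a * Rv K b) → ‖P (a - b)‖ ≤ D →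
    |g a - g b| ≤ τ) →
  (∫ t, g t ^ 2 ∂(bl K)) - (∫ t, g t ∂(bl K)) ^ 2 ≤
    3 / 2 * (2 * τ / r + r + 8 / r ^ 2 * (bl K).real B) + 6 * δ

/-- good points of the base: the fibre is centred, with a weak Poincaré inequality and a bound for
the covariance of its image under `T` -/
structure Gd {N M k : ℕ} (K : Set (E N × E M)) (T : E N × E M →ₗ[ℝ] E k) (A0 δ s : ℝ) (t : E M) :
    Prop where
  pos : 0 < Rv K t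
  kw : KW A0 δ (sl K t)
  cen : ∀ θ : E N, ∫ x, ⟪x, θ⟫_ℝ ∂(un (sl K t)) = 0
  cov : ∀ θ : E k, ‖θ‖ = 1 → ∫ x, ⟪T (x, 0), θ⟫_ℝ ^ 2 ∂(un (sl K t)) ≤ s

/-- KS5: the means over fibres which are near to each other -/
def S_LOC : Prop := ∀ (N M k : ℕ) (K : Set (E N × E M)) (T : E N × E M →ₗ[ℝ] E k)
  (A0 δ s h L : ℝ) (f : E k → ℝ) (a b : E M), CB K → 0 < A0 → 0 ≤ δ → δ ≤ 1 / 10 ^ 11 → 0 < s →
  64 * (A0 * s) ≤ h → 64 * s ≤ h → Gd K T A0 δ s a → Gd K T A0 δ s b →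
  Rv K ((1 / 2 : ℝ) • (a + b)) ≤ (1 + 1 / 8000) * Real.sqrt (Rv K a * Rv K b) →
  ‖T (0, a - b)‖ ^ 2 ≤ h / 8000 → ContDiff ℝ 1 f → 0 ≤ L → (∀ y, |f y| ≤ 1) →
  (∀ y, ‖fderiv ℝ f y‖ ≤ L) →
  (ey h (lw K T b) f - ey h (lw K T a) f) ^ 2 ≤ (A0 * s + h) * L ^ 2 + δ

/-- KS5': the variance in one fibre -/
def S_LV : Prop := ∀ (N M k : ℕ) (K : Set (E N × E M)) (T : E N × E M →ₗ[ℝ] E k)
  (A0 δ s h L : ℝ) (f : E k → ℝ) (t : E M), CB K → 0 < A0 → 0 ≤ δ → 0 < s → 0 < h →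
  Gd K T A0 δ s t → ContDiff ℝ 1 f → 0 ≤ L → (∀ y, |f y| ≤ 1) → (∀ y, ‖fderiv ℝ f y‖ ≤ L) →
  ey h (lw K T t) (fun y => f y ^ 2) - ey h (lw K T t) f ^ 2 ≤ (A0 * s + h) * L ^ 2 + δ

/-- the inequality `(Var v)² ≤ c0 s E ‖∇ v‖²`, `|v| ≤ 1`, for all linear images -/
def BP (c0 : ℝ) {M : ℕ} (ρ : Measure (E M)) : Prop := ∀ (k : ℕ) (P : E M →ₗ[ℝ] E k) (s : ℝ),
  0 < s → (∀ θ : E k, ‖θ‖ = 1 →
    (∫ t, ⟪P t, θ⟫_ℝ ^ 2 ∂ρ) - (∫ t, ⟪P t, θ⟫_ℝ ∂ρ) ^ 2 ≤ s) →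
  ∀ (C : ℝ) (v : E k → ℝ), BL C v → (∀ y, |v y| ≤ 1) →
  ((∫ t, v (P t) ^ 2 ∂ρ) - (∫ t, v (P t) ∂ρ) ^ 2) ^ 2 ≤
    c0 * s * ∫ t, ‖fderiv ℝ v (P t)‖ ^ 2 ∂ρ

/-- the covariances of the fibres are bounded on average -/
structure QC {N M : ℕ} (Q : ℝ) (K : Set (E N × E M)) (q : E M → ℝ) : Prop where
  meas : Measurable q
  nn : ∀ t, 0 ≤ q t
  int : Integrable q (bl K)
  le : ∫ t, q t ∂(bl K) ≤ Q
  cov : ∀ t, volume (sl K t) ≠ 0 → ∀ θ : E N,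
    ∫ x, ⟪x, θ⟫_ℝ ^ 2 ∂(un (sl K t)) ≤ q t * ∫ z, ⟪z.1, θ⟫_ℝ ^ 2 ∂(un K)

/-- KS6: concentration of functions of `T z + √h Z` -/
def S_YB : Prop := ∀ δ : ℝ, 0 < δ → ∃ δ' : ℝ, 0 < δ' ∧ ∀ A0 Q c0 : ℝ, 0 < A0 → 0 < Q → 0 < c0 →
  ∃ C κ : ℝ, 0 < C ∧ 0 < κ ∧ ∀ (N M k : ℕ) (K : Set (E N × E M)), CB K →
  (∀ t, volume (sl K t) ≠ 0 → KW A0 δ' (sl K t) ∧
    ∀ θ : E N, ∫ x, ⟪x, θ⟫_ℝ ∂(un (sl K t)) = 0) →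
  (∃ q : E M → ℝ, QC Q K q) → BP c0 (bl K) →
  ∀ (T : E N × E M →ₗ[ℝ] E k) (s : ℝ), 0 < s → (∀ θ : E k, ‖θ‖ = 1 →
    (∫ z, ⟪T z, θ⟫_ℝ ^ 2 ∂(un K)) - (∫ z, ⟪T z, θ⟫_ℝ ∂(un K)) ^ 2 ≤ s) →
  ∀ f : E k → ℝ, ContDiff ℝ 1 f → (∀ y, |f y| ≤ 1) → (∀ y, ‖fderiv ℝ f y‖ ≤ κ / Real.sqrt s) →
  ∃ c : ℝ, ∫ z, gs (C * s) (fun y => (f y - c) ^ 2) (T z) ∂(un K) ≤ δ

/-! ### symmetries -/

/-- log-concave densities with bounded support, invariant under `G` -/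
structure LCG {m : ℕ} (G : Set (E m ≃ₗᵢ[ℝ] E m)) (w : E m → ℝ) : Prop where
  meas : Measurable w
  nn : ∀ x, 0 ≤ w x
  logc : ∀ x y, ∀ t : ℝ, 0 < t → t < 1 → w x ^ (1 - t) * w y ^ t ≤ w ((1 - t) • x + t • y)
  supp : ∃ R : ℝ, ∀ x, R < ‖x‖ → w x = 0
  inv : ∀ g ∈ G, ∀ x, w (g x) = w x

/-- symmetries for which the inequality is known: no invariant vectors, the invariant quadratic
forms are the multiples of `‖x‖²`, and an inequality for invariant log-concave measures -/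
structure KG (c0 : ℝ) {m : ℕ} (G : Set (E m ≃ₗᵢ[ℝ] E m)) : Prop where
  mean : ∀ v : E m, (∀ g ∈ G, g v = v) → v = 0
  scal : ∀ A : E m →ₗ[ℝ] E m, A.IsSymmetric → (∀ g ∈ G, ∀ x, g (A x) = A (g x)) →
    ∃ c : ℝ, ∀ x, A x = c • x
  kls : ∀ w : E m → ℝ, LCG G w → ∀ μ : Measure (E m),
    μ = volume.withDensity (fun x => ENNReal.ofReal (w x)) → IsProbabilityMeasure μ →
    ∀ f : E m → ℝ, ContDiff ℝ 1 f → (∀ x, |f x| ≤ 1) →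
    ProbabilityTheory.variance f μ ^ 2 ≤
      c0 * ((∫ x, ‖x‖ ^ 2 ∂μ) / m) * ∫ x, ‖fderiv ℝ f x‖ ^ 2 ∂μ

/-- KS9: the law of the second component of a body with symmetries -/
def S_KGB : Prop := ∀ (c0 : ℝ) (N M : ℕ) (G : Set (E M ≃ₗᵢ[ℝ] E M)) (K : Set (E N × E M)),
  0 < c0 → KG c0 G → CB K → (∀ g ∈ G, ∀ x t, (x, t) ∈ K ↔ (x, g t) ∈ K) → BP c0 (bl K)

/-- the map which applies `g` to the component `i` -/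
noncomputable def ap {h N : ℕ} {m : Fin h → ℕ} (φ : (∀ i, E (m i)) ≃ₗ[ℝ] E N) (i : Fin h)
    (g : E (m i) ≃ₗᵢ[ℝ] E (m i)) (x : E N) : E N :=
  φ (Function.update (φ.symm x) i (g (φ.symm x i)))

/-- KS8: first and second moments of invariant measures -/
def S_INV : Prop := ∀ (c0 : ℝ) (h N : ℕ) (m : Fin h → ℕ) (G : ∀ i, Set (E (m i) ≃ₗᵢ[ℝ] E (m i)))
  (φ : (∀ i, E (m i)) ≃ₗ[ℝ] E N), (∀ i, KG c0 (G i)) →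
  ∃ nn : Fin h → E N → ℝ, (∀ i θ, 0 ≤ nn i θ) ∧ ∀ μ : Measure (E N), IsProbabilityMeasure μ →
    (∃ B : ℝ, ∀ᵐ x ∂μ, ‖x‖ ≤ B) → (∀ i, ∀ g ∈ G i, Measure.map (ap φ i g) μ = μ) →
    (∀ θ : E N, ∫ x, ⟪x, θ⟫_ℝ ∂μ = 0) ∧
    ∀ θ : E N, ∫ x, ⟪x, θ⟫_ℝ ^ 2 ∂μ = ∑ i, (∫ x, ‖φ.symm x i‖ ^ 2 ∂μ) * nn i θ

/-- KS10: bodies in a product with symmetries in the first component -/
def S_QCI : Prop := ∀ (c0 : ℝ) (h N M : ℕ) (m : Fin h → ℕ)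
  (G : ∀ i, Set (E (m i) ≃ₗᵢ[ℝ] E (m i))) (φ : (∀ i, E (m i)) ≃ₗ[ℝ] E N) (K : Set (E N × E M)),
  (∀ i, KG c0 (G i)) → CB K → (∀ i, ∀ g ∈ G i, ∀ x t, (x, t) ∈ K ↔ (ap φ i g x, t) ∈ K) →
  (∀ t, volume (sl K t) ≠ 0 → ∀ θ : E N, ∫ x, ⟪x, θ⟫_ℝ ∂(un (sl K t)) = 0) ∧
  ∃ q : E M → ℝ, QC (h + 1) K q

end Pool.Agent.R755.KS
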