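import Pool.Agent.H59.L.S8.R755.KS.Defs2
import Pool.Agent.H59.L.S8.R755.KS.KS4
import Pool.Agent.H59.L.S8.R755.KS.KS5
import Pool.Agent.H59.L.S8.R755.KS.KS9
import Pool.Agent.H59.L.S8.R754.KG.D

/-!
# Centred fibrations: disintegration
-/

set_option autoImplicit false

namespace Pool.Agent.R755.KS

open MeasureTheory Set Filter Topology
open scoped ENNReal InnerProductSpace
open Pool.Agent.H888R2.KT (gs gc)
open Pool.Agent.R754.KG (E un sl Rv un_prob un_int un_lint_ofReal)
open Pool.Agent.R755.KF (BL PB KW CB lw ey)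

namespace KS6aux

open KS9aux KS5aux

variable {N M k : ℕ} {K : Set (E N × E M)}

/-- mean over a fibre -/
noncomputable def mf (K : Set (E N × E M)) (F : E N × E M → ℝ) (t : E M) : ℝ :=
  ∫ x, F (x, t) ∂(un (sl K t))

theorem mf_cont {F : E N × E M → ℝ} (hF : Continuous F) (t : E M) :
    Continuous fun x : E N => F (x, t) := hF.comp (by fun_prop : Continuous fun x : E N => (x, t))

theorem un_zero {t : E M} (ht : volume (sl K t) = 0) (f : E N → ℝ) :
    ∫ x, f x ∂(un (sl K t)) = 0 := by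
  have h : un (sl K t) = 0 := by
    unfold un
    rw [Measure.restrict_eq_zero.2 ht, smul_zero]
  rw [h, integral_zero_measure]

theorem mf_zero {F : E N × E M → ℝ} {t : E M} (ht : volume (sl K t) = 0) : mf K F t = 0 :=
  un_zero ht _

theorem lint_mf (h : CB K) {F : E N × E M → ℝ} (hF : Continuous F) (h0 : ∀ z, 0 ≤ F z) (t : E M) :
    ENNReal.ofReal (mf K F t) * volume (sl K t) = ∫⁻ x in sl K t, ENNReal.ofReal (F (x, t)) := by
  by_cases ht : volume (sl K t) = 0
  · rw [ht, mul_zero]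
    exact (setLIntegral_measure_zero _ _ ht).symm
  · rw [un_lint_ofReal ht (sl_bd h t) (mf_cont hF t) (fun x => h0 _), mul_comm]
    rfl

theorem mf_meas (h : CB K) {F : E N × E M → ℝ} (hF : Continuous F) (h0 : ∀ z, 0 ≤ F z) :
    Measurable (mf K F) := by
  have e : mf K F = fun t => (∫⁻ x in sl K t, ENNReal.ofReal (F (x, t))).toReal / Rv K t := by
    funext t
    rw [← lint_mf h hF h0 t, ENNReal.toReal_mul, ENNReal.toReal_ofReal
      (show 0 ≤ mf K F t from integral_nonneg fun x => h0 _)]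
    by_cases ht : volume (sl K t) = 0
    · rw [mf_zero ht, zero_mul, zero_div]
    · have h1 : (volume (sl K t)).toReal ≠ 0 := (ENNReal.toReal_pos ht (sl_fin h t)).ne'
      have h2 : Rv K t = (volume (sl K t)).toReal := rfl
      rw [h2, mul_div_cancel_right₀ _ h1]
  rw [e]
  exact (sec_meas h _ hF.measurable.ennreal_ofReal).ennreal_toReal.div (R_meas h)

theorem mf_le (h : CB K) {F : E N × E M → ℝ} (hF : Continuous F) {C : ℝ}
    (hC0 : 0 ≤ C) (hC : ∀ z ∈ K, F z ≤ C) (t : E M) : mf K F t ≤ C := by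
  by_cases ht : volume (sl K t) = 0
  · rw [mf_zero ht]
    exact hC0
  have hp : IsProbabilityMeasure (un (sl K t)) := un_prob ht (sl_fin h t)
  have h1 : ∫ _, C ∂(un (sl K t)) = C := by simp
  unfold mf
  rw [← h1]
  refine integral_mono_ae (un_int ht (sl_bd h t) (mf_cont hF t)) (integrable_const _) ?_
  unfold un
  refine Measure.ae_smul_measure ?_ _
  exact (ae_restrict_iff' (sl_meas h t)).2 (Eventually.of_forall fun x hx => hC _ hx)

theorem kbd (h : CB K) {F : E N × E M → ℝ} (hF : Continuous F) :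
    ∃ C : ℝ, 0 ≤ C ∧ ∀ z ∈ K, F z ≤ C := by
  obtain ⟨C, hC⟩ := h.comp.exists_bound_of_continuousOn hF.continuousOn
  exact ⟨max C 0, le_max_right _ _, fun z hz => (le_abs_self _).trans
    ((hC z hz).trans (le_max_left _ _))⟩

theorem bl_pr (h : CB K) : IsProbabilityMeasure (bl K) := by
  have hp : IsProbabilityMeasure (un K) := un_prob h.pos.ne' (kfin h)
  exact Measure.isProbabilityMeasure_map measurable_snd.aemeasurable

theorem mf_int (h : CB K) {F : E N × E M → ℝ} (hF : Continuous F) (h0 : ∀ z, 0 ≤ F z) :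
    Integrable (mf K F) (bl K) := by
  have hp := bl_pr h
  obtain ⟨C, hC0, hC⟩ := kbd h hF
  refine Integrable.mono' (integrable_const C) (mf_meas h hF h0).aestronglyMeasurable
    (Eventually.of_forall fun t => ?_)
  rw [Real.norm_eq_abs, abs_of_nonneg (show 0 ≤ mf K F t from integral_nonneg fun x => h0 _)]
  exact mf_le h hF hC0 hC t

/-- disintegration -/
theorem dis (h : CB K) {F : E N × E M → ℝ} (hF : Continuous F) (h0 : ∀ z, 0 ≤ F z) :
    ∫ z, F z ∂(un K) = ∫ t, mf K F t ∂(bl K) := by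
  have h1 := un_lint_ofReal (A := K) h.pos.ne' h.comp.isBounded hF h0
  have h2 := bl_lint h (fun t => ENNReal.ofReal (mf K F t)) (mf_meas h hF h0).ennreal_ofReal
  have h3 : ∫⁻ t, ENNReal.ofReal (mf K F t) * volume (sl K t) =
      ∫⁻ z in K, ENNReal.ofReal (F z) := by
    rw [fub h _ hF.measurable.ennreal_ofReal]
    exact lintegral_congr fun t => lint_mf h hF h0 t
  rw [h3, h1, ← mul_assoc, ENNReal.inv_mul_cancel h.pos.ne' (kfin h), one_mul,
    ← ofReal_integral_eq_lintegral_ofReal (mf_int h hF h0)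
      (Eventually.of_forall fun t => integral_nonneg fun x => h0 _)] at h2
  have h4 : 0 ≤ ∫ z, F z ∂(un K) := integral_nonneg h0
  have h5 : 0 ≤ ∫ t, mf K F t ∂(bl K) := integral_nonneg fun t => integral_nonneg fun x => h0 _
  exact ((ENNReal.ofReal_eq_ofReal_iff h5 h4).1 h2).symm

theorem mf_snd (h : CB K) {G : E M → ℝ} (t : E M) (ht : volume (sl K t) ≠ 0) :
    mf K (fun z => G z.2) t = G t := by
  have hp : IsProbabilityMeasure (un (sl K t)) := un_prob ht (sl_fin h t)
  unfold mf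
  simp

/-- almost all fibres have positive volume -/
theorem ae_pos (h : CB K) : ∀ᵐ t ∂(bl K), volume (sl K t) ≠ 0 := by
  rw [ae_iff]
  have hm : MeasurableSet {t : E M | ¬ volume (sl K t) ≠ 0} := by
    have e : {t : E M | ¬ volume (sl K t) ≠ 0} = Rv K ⁻¹' {0} := by
      ext t
      rw [mem_preimage, mem_singleton_iff, mem_ofPred_eq, not_not]
      unfold Rv
      rw [ENNReal.toReal_eq_zero_iff]
      exact ⟨fun h => Or.inl h, fun h' => h'.resolve_right (sl_fin h t)⟩
    rw [e]
    exact R_meas h (measurableSet_singleton 0)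
  have h1 := bl_lint h ({t : E M | ¬ volume (sl K t) ≠ 0}.indicator fun _ => 1)
    (measurable_const.indicator hm)
  rw [lintegral_indicator_const hm, one_mul] at h1
  rw [h1]
  have h2 : ∀ t : E M, {t : E M | ¬ volume (sl K t) ≠ 0}.indicator (fun _ => (1 : ℝ≥0∞)) t *
      volume (sl K t) = 0 := by
    intro t
    by_cases ht : volume (sl K t) = 0
    · rw [ht, mul_zero]
    · rw [indicator_of_notMem (by simpa using ht), zero_mul]
  have h3 : ∫⁻ t, {t : E M | ¬ volume (sl K t) ≠ 0}.indicator (fun _ => (1 : ℝ≥0∞)) t *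
      volume (sl K t) = 0 := by
    simp only [h2, lintegral_zero]
  rw [h3, mul_zero]

/-- covariances of centred fibrations -/
theorem cov_split (h : CB K) (T : E N × E M →ₗ[ℝ] E k)
    (hcen : ∀ t, volume (sl K t) ≠ 0 → ∀ θ : E N, ∫ x, ⟪x, θ⟫_ℝ ∂(un (sl K t)) = 0)
    (θ : E k) : (∫ z, ⟪T z, θ⟫_ℝ ^ 2 ∂(un K)) - (∫ z, ⟪T z, θ⟫_ℝ ∂(un K)) ^ 2 =
      (∫ z, ⟪T (z.1, 0), θ⟫_ℝ ^ 2 ∂(un K)) + ((∫ t, ⟪T (0, t), θ⟫_ℝ ^ 2 ∂(bl K)) -
        (∫ t, ⟪T (0, t), θ⟫_ℝ ∂(bl K)) ^ 2) := by
  have hTc : Continuous T := T.continuous_of_finiteDimensional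
  have hp : IsProbabilityMeasure (un K) := un_prob h.pos.ne' (kfin h)
  have hpb := bl_pr h
  obtain ⟨a, ha⟩ : ∃ a : E N × E M → ℝ, a = fun z => ⟪T (z.1, 0), θ⟫_ℝ := ⟨_, rfl⟩
  obtain ⟨b, hb⟩ : ∃ b : E M → ℝ, b = fun t => ⟪T (0, t), θ⟫_ℝ := ⟨_, rfl⟩
  have hac : Continuous a := by
    rw [ha]
    exact (hTc.comp (by fun_prop : Continuous fun z : E N × E M => (z.1, (0 : E M)))).inner
      continuous_const
  have hbc : Continuous b := by
    rw [hb]
    exact (hTc.comp (by fun_prop : Continuous fun t : E M => ((0 : E N), t))).inner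
      continuous_const
  have hT : ∀ z, ⟪T z, θ⟫_ℝ = a z + b z.2 := by
    intro z
    rw [ha, hb]
    simp only
    rw [← inner_add_left, ← T_split]
  have ha0 : ∀ t, volume (sl K t) ≠ 0 → ∫ x, a (x, t) ∂(un (sl K t)) = 0 := by
    intro t ht
    rw [ha]
    exact cen_T T (hcen t ht) θ
  -- mean of `a`
  have key : ∀ G : E M → ℝ, Continuous G → ∫ z, (a z + G z.2) ^ 2 ∂(un K) =
      (∫ z, a z ^ 2 ∂(un K)) + ∫ z, G z.2 ^ 2 ∂(un K) := by
    intro G hG
    have c1 : Continuous fun z : E N × E M => (a z + G z.2) ^ 2 := by fun_prop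
    have c2 : Continuous fun z : E N × E M => a z ^ 2 := by fun_prop
    have c3 : Continuous fun z : E N × E M => G z.2 ^ 2 := by fun_prop
    rw [dis h c1 (fun z => sq_nonneg _), dis h c2 (fun z => sq_nonneg _),
      dis h c3 (fun z => sq_nonneg _), ← integral_add (mf_int h c2 fun z => sq_nonneg _)
      (mf_int h c3 fun z => sq_nonneg _)]
    refine integral_congr_ae ?_
    filter_upwards [ae_pos h] with t ht
    have hpt : IsProbabilityMeasure (un (sl K t)) := un_prob ht (sl_fin h t)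
    rw [mf_snd h (G := fun t => G t ^ 2) t ht]
    unfold mf
    have i1 : Integrable (fun x => a (x, t) ^ 2) (un (sl K t)) :=
      un_int ht (sl_bd h t) (mf_cont c2 t)
    have i2 : Integrable (fun x => a (x, t)) (un (sl K t)) := un_int ht (sl_bd h t) (mf_cont hac t)
    have e : (fun x : E N => (a (x, t) + G t) ^ 2) = fun x =>
        a (x, t) ^ 2 + (2 * G t * a (x, t) + G t ^ 2) := by
      funext x
      ring
    have i3 : Integrable (fun x => 2 * G t * a (x, t) + G t ^ 2) (un (sl K t)) :=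
      (i2.const_mul _).add (integrable_const _)
    change ∫ x, (a (x, t) + G t) ^ 2 ∂(un (sl K t)) = _
    rw [e, integral_add i1 i3, integral_add (i2.const_mul _) (integrable_const _),
      integral_const_mul, ha0 t ht]
    simp
  have hm : ∫ z, a z ∂(un K) = 0 := by
    have h1 := key (fun _ => 1) continuous_const
    have i1 : Integrable (fun z => a z ^ 2) (un K) :=
      un_int h.pos.ne' h.comp.isBounded (by fun_prop)
    have i2 : Integrable a (un K) := un_int h.pos.ne' h.comp.isBounded hac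
    have e : (fun z : E N × E M => (a z + 1) ^ 2) = fun z => a z ^ 2 + (2 * a z + 1) := by
      funext z
      ring
    have i3 : Integrable (fun z => 2 * a z + 1) (un K) := (i2.const_mul _).add (integrable_const _)
    rw [e, integral_add i1 i3, integral_add (i2.const_mul _) (integrable_const _),
      integral_const_mul] at h1
    simp only [integral_const, probReal_univ, smul_eq_mul, one_mul, one_pow, mul_one] at h1
    linarith
  have hbl : ∀ G : E M → ℝ, Continuous G → ∫ z, G z.2 ∂(un K) = ∫ t, G t ∂(bl K) := by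
    intro G hG
    unfold bl
    rw [integral_map measurable_snd.aemeasurable hG.aestronglyMeasurable]
  have e1 : ∫ z, ⟪T (z.1, 0), θ⟫_ℝ ^ 2 ∂(un K) = ∫ z, a z ^ 2 ∂(un K) := by rw [ha]
  have e2 : ∫ t, ⟪T (0, t), θ⟫_ℝ ^ 2 ∂(bl K) = ∫ t, b t ^ 2 ∂(bl K) := by rw [hb]
  have e3 : ∫ t, ⟪T (0, t), θ⟫_ℝ ∂(bl K) = ∫ t, b t ∂(bl K) := by rw [hb]
  rw [e1, e2, e3]
  simp only [hT]
  have i2 : Integrable a (un K) := un_int h.pos.ne' h.comp.isBounded hac
  have i4 : Integrable (fun z : E N × E M => b z.2) (un K) :=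
    un_int h.pos.ne' h.comp.isBounded (by fun_prop)
  rw [key b hbc, integral_add i2 i4, hm, zero_add, hbl (fun t => b t ^ 2) (by fun_prop),
    hbl b hbc]
  ring

end KS6aux

end Pool.Agent.R755.KS
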