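import Pool.Agent.H59.L.S8.R755.KS.Cls
import Pool.Agent.H59.L.S8.R755.KF.Geo

/-!
# Centred fibrations: bodies with symmetries belong to the class
-/

set_option autoImplicit false

namespace Pool.Agent.R755.KS

open MeasureTheory Set Filter Topology
open scoped ENNReal InnerProductSpace
open Pool.Agent.R754.KG (E un sl Rv cc_zero VW_ind un_prob min_const)
open Pool.Agent.R755.KF

theorem QC.mono {N M : ℕ} {Q Q' : ℝ} {K : Set (E N × E M)} {q : E M → ℝ} (h : QC Q K q)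
    (hQ : Q ≤ Q') : QC Q' K q :=
  ⟨h.meas, h.nn, h.int, h.le.trans hQ, h.cov⟩

theorem bp_zero {c0 : ℝ} (hc0 : 0 ≤ c0) (μ : Measure (E 0)) [IsProbabilityMeasure μ] :
    BP c0 μ := by
  intro k P s hs _ C v _ _
  have e : ∀ x : E 0, P x = P 0 := fun x => by rw [Subsingleton.elim x 0]
  simp only [e]
  simp only [integral_const, probReal_univ, smul_eq_mul, one_mul, sub_self]
  rw [zero_pow two_ne_zero]
  positivity

/-- bodies with a product of symmetries belong to the class -/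
theorem grp_mem (hq : S_QCI) (hb : S_KGB) (c0 : ℝ) (hc0 : 0 < c0) (d h : ℕ) :
    ∀ Q : ℝ, (h : ℝ) + 1 ≤ Q → ∀ (N : ℕ) (m : Fin h → ℕ)
    (G : ∀ i, Set (E (m i) ≃ₗᵢ[ℝ] E (m i))) (φ : (∀ i, E (m i)) ≃ₗ[ℝ] E N), (∀ i, KG c0 (G i)) →
    ∀ K : Set (E N), IsCompact K → Convex ℝ K → (interior K).Nonempty →
    (∀ i, ∀ g ∈ G i, ∀ x, x ∈ K ↔ ap φ i g x ∈ K) → Cs c0 Q d h N K := by
  induction h with
  | zero =>
    intro Q _ N m G φ _ K hc hcv hi _
    have hN : N = 0 := by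
      have h1 := φ.finrank_eq
      rw [Module.finrank_zero_of_subsingleton] at h1
      simpa using h1.symm
    subst hN
    have hp : IsProbabilityMeasure (un K) := un_prob (vol_ne hi) hc.measure_lt_top.ne
    exact .base _ _ hc hcv hi (bp_zero hc0.le _)
  | succ h ih =>
    intro Q hQ N' m G φ' hG K' hc hcv hi hinv
    have hQ' : (h : ℝ) + 1 ≤ Q := by
      push_cast at hQ
      linarith
    obtain ⟨N, hN⟩ : ∃ N, N = Module.finrank ℝ (∀ i : Fin h, E (m i.succ)) := ⟨_, rfl⟩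
    let φ : (∀ i : Fin h, E (m i.succ)) ≃ₗ[ℝ] E N := LinearEquiv.ofFinrankEq _ _ (by simp [hN])
    let e0 : (E N × E (m 0)) ≃ₗ[ℝ] (∀ i, E (m i)) :=
      (LinearEquiv.prodComm ℝ (E N) (E (m 0))).trans
        ((LinearEquiv.prodCongr (LinearEquiv.refl ℝ (E (m 0))) φ.symm).trans
          (Fin.consLinearEquiv ℝ fun i => E (m i)))
    let e : (E N × E (m 0)) ≃ₗ[ℝ] E N' := e0.trans φ'
    have he : ∀ x t, e (x, t) = φ' (Fin.cons t (φ.symm x)) := fun x t => rfl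
    have hes : ∀ x t, φ'.symm (e (x, t)) = Fin.cons t (φ.symm x) := fun x t => by
      rw [he, LinearEquiv.symm_apply_apply]
    have h1 : ∀ (i : Fin h) (g : E (m i.succ) ≃ₗᵢ[ℝ] E (m i.succ)) x t,
        e (ap φ i g x, t) = ap φ' i.succ g (e (x, t)) := by
      intro i g x t
      unfold ap
      rw [hes, he, LinearEquiv.symm_apply_apply, Fin.cons_succ, Fin.cons_update]
    have h0 : ∀ (g : E (m 0) ≃ₗᵢ[ℝ] E (m 0)) x t, e (x, g t) = ap φ' 0 g (e (x, t)) := by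
      intro g x t
      unfold ap
      rw [hes, he, Fin.cons_zero, Fin.update_cons_zero]
    have hF := cb_pre e hc hcv hi
    have hi1 : ∀ i : Fin h, ∀ g ∈ G i.succ, ∀ x t,
        (x, t) ∈ e ⁻¹' K' ↔ (ap φ i g x, t) ∈ e ⁻¹' K' := by
      intro i g hg x t
      rw [mem_preimage, mem_preimage, h1]
      exact hinv i.succ g hg _
    have hi0 : ∀ g ∈ G 0, ∀ x t, (x, t) ∈ e ⁻¹' K' ↔ (x, g t) ∈ e ⁻¹' K' := by
      intro g hg x t
      rw [mem_preimage, mem_preimage, h0]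
      exact hinv 0 g hg _
    obtain ⟨hcen, q, hqc⟩ := hq c0 h N (m 0) (fun i => m i.succ) (fun i => G i.succ) φ _
      (fun i => hG i.succ) hF hi1
    have hbp := hb c0 N (m 0) (G 0) _ hc0 (hG 0) hF hi0
    exact .cent _ N (m 0) N' K' e hc hcv hi
      (fun t ht => ih Q hQ' N _ _ φ (fun i => hG i.succ) _ (sl_comp hF t)
        (sl_conv hF t) (int_of_vol (sl_conv hF t) ht) (fun i g hg x => hi1 i g hg x t))
      hcen ⟨q, hqc.mono hQ'⟩ hbp

/-- bodies in `ℝ^{m_1} × ⋯ × ℝ^{m_h} × ℝ^d` with symmetries in the first `h` components -/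
theorem all_mem (hq : S_QCI) (hb : S_KGB) (c0 : ℝ) (hc0 : 0 < c0) (d h : ℕ) (Q : ℝ)
    (hQ : (h : ℝ) + 1 ≤ Q) (n : ℕ) (m : Fin h → ℕ) (G : ∀ i, Set (E (m i) ≃ₗᵢ[ℝ] E (m i)))
    (e : ((∀ i, E (m i)) × E d) ≃ₗ[ℝ] E n) (hG : ∀ i, KG c0 (G i)) (K : Set (E n))
    (hc : IsCompact K) (hcv : Convex ℝ K) (hi : (interior K).Nonempty)
    (hinv : ∀ i, ∀ g ∈ G i, ∀ z t, e (z, t) ∈ K ↔ e (Function.update z i (g (z i)), t) ∈ K) :
    Cs c0 Q d (h + 1) n K := by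
  obtain ⟨N, hN⟩ : ∃ N, N = Module.finrank ℝ (∀ i : Fin h, E (m i)) := ⟨_, rfl⟩
  let φ : (∀ i : Fin h, E (m i)) ≃ₗ[ℝ] E N := LinearEquiv.ofFinrankEq _ _ (by simp [hN])
  let e' : (E N × E d) ≃ₗ[ℝ] E n :=
    (LinearEquiv.prodCongr φ.symm (LinearEquiv.refl ℝ (E d))).trans e
  have he : ∀ x t, e' (x, t) = e (φ.symm x, t) := fun x t => rfl
  have hF := cb_pre e' hc hcv hi
  refine .fibred _ N d n K e' le_rfl hc hcv hi fun t ht => grp_mem hq hb c0 hc0 d h Q hQ N m G φ hG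
    _ (sl_comp hF t) (sl_conv hF t) (int_of_vol (sl_conv hF t) ht) fun i g hg x => ?_
  change e' (x, t) ∈ K ↔ e' (ap φ i g x, t) ∈ K
  rw [he, he]
  unfold ap
  rw [LinearEquiv.symm_apply_apply]
  exact hinv i g hg _ _

end Pool.Agent.R755.KS
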